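import Mathlib

set_option autoImplicit false

namespace Pool.Agent.Lib.MP_cd64ef_nt

open Finset

universe u

/-- integer indicator function of a set -/
noncomputable def ind {G : Type*} (X : Set G) (x : G) : ℤ := by
  classical exact if x ∈ X then 1 else 0

section Ind
variable {G : Type*}

lemma ind_of_mem {X : Set G} {x : G} (h : x ∈ X) : ind X x = 1 := by simp [ind, h]
lemma ind_of_not {X : Set G} {x : G} (h : x ∉ X) : ind X x = 0 := by simp [ind, h]
lemma ind_nonneg (X : Set G) (x : G) : 0 ≤ ind X x := by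
  by_cases h : x ∈ X <;> simp [ind, h]
lemma ind_le_one (X : Set G) (x : G) : ind X x ≤ 1 := by
  by_cases h : x ∈ X <;> simp [ind, h]
lemma ind_compl (X : Set G) (x : G) : ind Xᶜ x = 1 - ind X x := by
  by_cases h : x ∈ X <;> simp [ind, h]
lemma ind_inter (X Y : Set G) (x : G) : ind (X ∩ Y) x = ind X x * ind Y x := by
  by_cases h : x ∈ X <;> by_cases h' : x ∈ Y <;> simp [ind, h, h']
lemma ind_diff (X Y : Set G) (x : G) : ind (X \ Y) x = ind X x * (1 - ind Y x) := by
  by_cases h : x ∈ X <;> by_cases h' : x ∈ Y <;> simp [ind, h, h']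
lemma ind_union (X Y : Set G) (x : G) :
    ind (X ∪ Y) x = ind X x + ind Y x - ind X x * ind Y x := by
  by_cases h : x ∈ X <;> by_cases h' : x ∈ Y <;> simp [ind, h, h']
lemma ind_preimage {D : Type*} (f : G → D) (X : Set D) (x : G) :
    ind (f ⁻¹' X) x = ind X (f x) := rfl
lemma ind_mono {X Y : Set G} (h : X ⊆ Y) (x : G) : ind X x ≤ ind Y x := by
  by_cases hx : x ∈ X
  · rw [ind_of_mem hx, ind_of_mem (h hx)]
  · rw [ind_of_not hx]; exact ind_nonneg _ _
lemma ind_univ (x : G) : ind (Set.univ : Set G) x = 1 := ind_of_mem trivial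
lemma ind_empty (x : G) : ind (∅ : Set G) x = 0 := ind_of_not (fun h => h)
lemma ind_congr {G' : Type*} {X : Set G} {Y : Set G'} {x : G} {y : G'} (h : x ∈ X ↔ y ∈ Y) :
    ind X x = ind Y y := by
  by_cases hx : x ∈ X
  · rw [ind_of_mem hx, ind_of_mem (h.1 hx)]
  · rw [ind_of_not hx, ind_of_not (fun hy => hx (h.2 hy))]
lemma ind_cases (X : Set G) (x : G) : ind X x = 0 ∨ ind X x = 1 := by
  by_cases hx : x ∈ X
  · exact Or.inr (ind_of_mem hx)
  · exact Or.inl (ind_of_not hx)

lemma sum_ind_single [Fintype G] (y : G) (F : G → ℤ) :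
    ∑ x, ind ({y} : Set G) x * F x = F y := by
  classical
  rw [Finset.sum_eq_single y]
  · rw [ind_of_mem (Set.mem_singleton y), one_mul]
  · intro b _ hb
    rw [ind_of_not (by simpa using hb), zero_mul]
  · simp
end Ind

/-- size of a set in a finite type -/
noncomputable def sz {G : Type*} [Fintype G] (X : Set G) : ℤ := ∑ x, ind X x

section Sz
variable {G : Type*} [Fintype G]

lemma sz_nonneg (X : Set G) : 0 ≤ sz X := Finset.sum_nonneg fun x _ => ind_nonneg X x
lemma sz_mono {X Y : Set G} (h : X ⊆ Y) : sz X ≤ sz Y :=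
  Finset.sum_le_sum fun x _ => ind_mono h x
lemma sz_univ : sz (Set.univ : Set G) = Fintype.card G := by
  simp [sz, ind_univ]
lemma sz_empty : sz (∅ : Set G) = 0 := by simp [sz, ind_empty]
lemma sz_compl (X : Set G) : sz Xᶜ = Fintype.card G - sz X := by
  simp [sz, ind_compl, Finset.sum_sub_distrib]
lemma sz_single (y : G) : sz ({y} : Set G) = 1 := by
  have := sum_ind_single y (fun _ => (1 : ℤ))
  simpa [sz] using this
lemma one_le_sz {X : Set G} {x : G} (h : x ∈ X) : 1 ≤ sz X := by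
  rw [← sz_single x]; exact sz_mono (by simpa using h)
lemma eq_empty_of_sz {X : Set G} (h : sz X ≤ 0) : X = ∅ := by
  by_contra hne
  obtain ⟨x, hx⟩ := Set.nonempty_iff_ne_empty.2 hne
  have := one_le_sz hx
  omega
lemma sz_eq_diff (X Y : Set G) : sz X = sz Y + sz (X \ Y) - sz (Y \ X) := by
  simp only [sz, ← Finset.sum_add_distrib, ← Finset.sum_sub_distrib, ind_diff]
  exact Finset.sum_congr rfl fun x _ => by ring
lemma sz_inter_add_diff (X Y : Set G) : sz (X ∩ Y) + sz (X \ Y) = sz X := by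
  simp only [sz, ← Finset.sum_add_distrib, ind_diff, ind_inter]
  exact Finset.sum_congr rfl fun x _ => by ring
lemma sz_union_add_inter (X Y : Set G) : sz (X ∪ Y) + sz (X ∩ Y) = sz X + sz Y := by
  simp only [sz, ← Finset.sum_add_distrib, ind_union, ind_inter]
  exact Finset.sum_congr rfl fun x _ => by ring
lemma sz_union_le (X Y : Set G) : sz (X ∪ Y) ≤ sz X + sz Y := by
  have := sz_union_add_inter X Y
  have := sz_nonneg (X ∩ Y)
  omega
lemma sz_eq_ncard (X : Set G) : sz X = X.ncard := by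
  classical
  rw [Set.ncard_eq_toFinset_card' X]
  unfold sz ind
  rw [Finset.sum_boole]
  congr 2
  ext x
  simp
lemma sz_lt_of_ssubset {X Y : Set G} (h : X ⊆ Y) {y : G} (hy : y ∈ Y) (hx : y ∉ X) :
    sz X + 1 ≤ sz Y := by
  have h1 := sz_inter_add_diff Y X
  rw [Set.inter_eq_right.2 h] at h1
  have := one_le_sz (X := Y \ X) ⟨hy, hx⟩
  omega

/-- The step inequality: moving from X0 to X costs w per extra point and z per hole. -/
lemma step (X X0 : Set G) (ρ : G → ℤ) (t z w : ℤ) (h1 : ∀ x ∈ X0, ρ x ≤ t - z)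
    (h2 : ∀ x ∉ X0, t + w ≤ ρ x) :
    ∑ x, ind X x * (t - ρ x) ≤
      ∑ x, ind X0 x * (t - ρ x) - w * sz (X \ X0) - z * sz (X0 \ X) := by
  simp only [sz, Finset.mul_sum, ← Finset.sum_sub_distrib]
  refine Finset.sum_le_sum fun x _ => ?_
  simp only [ind_diff]
  by_cases hx : x ∈ X <;> by_cases h0 : x ∈ X0
  · simp [ind_of_mem hx, ind_of_mem h0]
  · have := h2 x h0
    simp only [ind_of_mem hx, ind_of_not h0]; linarith
  · have := h1 x h0
    simp only [ind_of_not hx, ind_of_mem h0]; linarith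
  · simp [ind_of_not hx, ind_of_not h0]
end Sz

section Conv
variable {G : Type*} [AddCommGroup G] [Fintype G]

lemma sum_refl (g : G) (F : G → ℤ) : ∑ v, F (-g - v) = ∑ v, F v :=
  Fintype.sum_equiv (Equiv.subLeft (-g)) _ _ fun _ => rfl

lemma sum_shift (e : G) (F : G → ℤ) : ∑ v, F (v + e) = ∑ v, F v :=
  Fintype.sum_equiv (Equiv.addRight e) _ _ fun _ => rfl

lemma sum_swap (g : G) (F : G → G → ℤ) : ∑ v, F v (-g - v) = ∑ v, F (-g - v) v := by
  rw [← sum_refl g (fun v => F (-g - v) v)]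
  refine Finset.sum_congr rfl fun v _ => ?_
  congr 1
  abel

/-- number of v in X with -g-v in Y -/
noncomputable def rr (X Y : Set G) (g : G) : ℤ := ∑ v, ind X v * ind Y (-g - v)

/-- number of triples summing to zero -/
noncomputable def TT (A B C : Set G) : ℤ := ∑ g, ind C g * rr A B g

/-- the Pollard deficiency -/
noncomputable def Phi (A B C : Set G) (t : ℤ) : ℤ :=
  t * (sz A + sz B + sz C - Fintype.card G) - t ^ 2 - TT A B C

lemma rr_nonneg (X Y : Set G) (g : G) : 0 ≤ rr X Y g :=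
  Finset.sum_nonneg fun _ _ => mul_nonneg (ind_nonneg _ _) (ind_nonneg _ _)

lemma rr_comm (X Y : Set G) (g : G) : rr X Y g = rr Y X g := by
  unfold rr
  rw [sum_swap g (fun a b => ind X a * ind Y b)]
  exact Finset.sum_congr rfl fun v _ => mul_comm _ _

lemma sum_ind_refl (Y : Set G) (g : G) : ∑ v, ind Y (-g - v) = sz Y := sum_refl g (ind Y)

lemma rr_le_left (X Y : Set G) (g : G) : rr X Y g ≤ sz X :=
  Finset.sum_le_sum fun v _ => by
    have := ind_le_one Y (-g - v)
    have := ind_nonneg X v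
    nlinarith

lemma rr_le_add (X X0 Y Y0 : Set G) (g : G) :
    rr X Y g ≤ rr X0 Y0 g + sz (X \ X0) + sz (Y \ Y0) := by
  rw [← sum_ind_refl (Y \ Y0) g]
  simp only [rr, sz, ← Finset.sum_add_distrib, ind_diff]
  refine Finset.sum_le_sum fun v _ => ?_
  rcases ind_cases X v with h1 | h1 <;> rcases ind_cases X0 v with h2 | h2 <;>
    rcases ind_cases Y (-g - v) with h3 | h3 <;> rcases ind_cases Y0 (-g - v) with h4 | h4 <;>
    simp [h1, h2, h3, h4]

lemma rr_mono {X X0 Y Y0 : Set G} (h : X ⊆ X0) (h' : Y ⊆ Y0) (g : G) :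
    rr X Y g ≤ rr X0 Y0 g := by
  have := rr_le_add X X0 Y Y0 g
  rw [Set.sdiff_eq_empty.2 h, Set.sdiff_eq_empty.2 h', sz_empty] at this
  simpa using this

lemma rr_compl (X Y : Set G) (g : G) : rr X Yᶜ g = sz X - rr X Y g := by
  simp only [rr, sz, ← Finset.sum_sub_distrib, ind_compl]
  exact Finset.sum_congr rfl fun v _ => by ring

lemma rr_compl2 (X Y : Set G) (g : G) :
    rr Xᶜ Yᶜ g = Fintype.card G - sz X - sz Y + rr X Y g := by
  rw [rr_compl, sz_compl, rr_comm, rr_compl, rr_comm]; ring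

lemma rr_univ (X : Set G) (g : G) : rr X Set.univ g = sz X := by
  simp [rr, sz, ind_univ]

lemma rr_empty (X : Set G) (g : G) : rr X ∅ g = 0 := by
  simp [rr, ind_empty]

lemma TT_swap12 (A B C : Set G) : TT A B C = TT B A C := by
  unfold TT
  exact Finset.sum_congr rfl fun g _ => by rw [rr_comm]

lemma TT_swap13 (A B C : Set G) : TT A B C = TT C B A := by
  unfold TT rr
  simp only [Finset.mul_sum]
  rw [Finset.sum_comm]
  refine Finset.sum_congr rfl fun a _ => Finset.sum_congr rfl fun c _ => ?_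
  have : -c - a = -a - c := by abel
  rw [this]; ring

lemma TT_swap23 (A B C : Set G) : TT A B C = TT A C B := by
  rw [TT_swap12, TT_swap13, TT_swap12]

lemma TT_nonneg (A B C : Set G) : 0 ≤ TT A B C :=
  Finset.sum_nonneg fun _ _ => mul_nonneg (ind_nonneg _ _) (rr_nonneg _ _ _)

lemma Phi_swap12 (A B C : Set G) (t : ℤ) : Phi A B C t = Phi B A C t := by
  unfold Phi; rw [TT_swap12]; ring
lemma Phi_swap13 (A B C : Set G) (t : ℤ) : Phi A B C t = Phi C B A t := by
  unfold Phi; rw [TT_swap13]; ring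
lemma Phi_swap23 (A B C : Set G) (t : ℤ) : Phi A B C t = Phi A C B t := by
  unfold Phi; rw [TT_swap23]; ring

lemma Phi_eq_sum (A B C : Set G) (t : ℤ) :
    Phi A B C t = t * (sz A + sz B - Fintype.card G) - t ^ 2 +
      ∑ g, ind C g * (t - rr A B g) := by
  have : ∑ g, ind C g * (t - rr A B g) = t * sz C - TT A B C := by
    simp only [TT, sz, Finset.mul_sum, ← Finset.sum_sub_distrib]
    exact Finset.sum_congr rfl fun g _ => by ring
  rw [this]; unfold Phi; ring

lemma Phi_step (A B C C0 : Set G) (t z w : ℤ) (h1 : ∀ x ∈ C0, rr A B x ≤ t - z)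
    (h2 : ∀ x ∉ C0, t + w ≤ rr A B x) :
    Phi A B C t ≤ Phi A B C0 t - w * sz (C \ C0) - z * sz (C0 \ C) := by
  have := step C C0 (rr A B) t z w h1 h2
  rw [Phi_eq_sum, Phi_eq_sum]; linarith

/-- the threshold set maximises the deficiency -/
lemma Phi_le_thr (A B C : Set G) (t : ℤ) : Phi A B C t ≤ Phi A B {g | rr A B g < t} t := by
  have := Phi_step A B C {g | rr A B g < t} t 0 0
    (fun x hx => by simp only [Set.mem_ofPred_eq] at hx; omega)
    (fun x hx => by simp only [Set.mem_ofPred_eq] at hx; omega)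
  simpa using this

lemma TT_compl (A B C : Set G) :
    TT Aᶜ B Cᶜ = sz B * (Fintype.card G - sz A - sz C) + TT A B C := by
  rw [TT_swap23, TT_swap23 A B C]
  unfold TT
  simp only [rr_compl2, sz, Finset.sum_mul, ← Finset.sum_add_distrib]
  exact Finset.sum_congr rfl fun g _ => by ring

lemma Phi_dual (A B C : Set G) (t : ℤ) : Phi Aᶜ B Cᶜ (sz B - t) = Phi A B C t := by
  unfold Phi; rw [TT_compl, sz_compl, sz_compl]; ring

lemma sz_shift (X : Set G) (e : G) : sz {x | x + e ∈ X} = sz X :=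
  sum_shift e (ind X)

lemma rr_shift_right (X Y : Set G) (e g : G) : rr X {x | x + e ∈ Y} g = rr X Y (g - e) := by
  unfold rr
  refine Finset.sum_congr rfl fun v _ => ?_
  congr 1
  refine ind_congr ?_
  simp only [Set.mem_ofPred_eq]
  have : -g - v + e = -(g - e) - v := by abel
  rw [this]

lemma rr_shift_left (X Y : Set G) (e g : G) : rr {x | x + e ∈ X} Y g = rr X Y (g - e) := by
  rw [rr_comm, rr_shift_right, rr_comm]

lemma TT_shift (A B C : Set G) (e : G) :
    TT A {x | x + e ∈ B} {x | x + -e ∈ C} = TT A B C := by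
  rw [TT_swap13, TT_swap13 A B C]
  unfold TT
  refine Finset.sum_congr rfl fun g _ => ?_
  rw [rr_shift_left, rr_shift_right]
  congr 2
  abel

lemma Phi_shift (A B C : Set G) (e : G) (t : ℤ) :
    Phi A {x | x + e ∈ B} {x | x + -e ∈ C} t = Phi A B C t := by
  unfold Phi; rw [TT_shift, sz_shift, sz_shift]

end Conv

end Pool.Agent.Lib.MP_cd64ef_nt
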