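import Pool.Agent.Lib.MP_cd64ef_nt.Basic

set_option autoImplicit false

namespace Pool.Agent.Lib.MP_cd64ef_nt

open Finset

universe u

/-- every fibre of f has exactly k points -/
def Fib {G D : Type*} [Fintype G] [Fintype D] (f : G → D) (k : ℤ) : Prop :=
  ∀ F : D → ℤ, ∑ x, F (f x) = k * ∑ y, F y

section Fib
variable {G D : Type*} [Fintype G] [Fintype D]

lemma Fib.sz {f : G → D} {k : ℤ} (h : Fib f k) (X : Set D) : sz (f ⁻¹' X) = k * sz X :=
  h (ind X)

lemma Fib.card {f : G → D} {k : ℤ} (h : Fib f k) :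
    (Fintype.card G : ℤ) = k * Fintype.card D := by
  have := h (fun _ => 1)
  simpa using this

lemma Fib.fibre {f : G → D} {k : ℤ} (h : Fib f k) (y : D) :
    Pool.Agent.Lib.MP_cd64ef_nt.sz (f ⁻¹' {y}) = k := by
  rw [h.sz, sz_single, mul_one]

lemma Fib.pos [Nonempty G] {f : G → D} {k : ℤ} (h : Fib f k) : 1 ≤ k := by
  obtain ⟨x⟩ := ‹Nonempty G›
  rw [← h.fibre (f x)]
  exact one_le_sz (x := x) rfl

lemma Fib.surj [Nonempty G] {f : G → D} {k : ℤ} (h : Fib f k) (y : D) : ∃ x, f x = y := by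
  by_contra hn
  push Not at hn
  have h1 : f ⁻¹' {y} = ∅ := by
    ext x; simpa using hn x
  have h2 := h.fibre y
  rw [h1, sz_empty] at h2
  have := h.pos
  omega

lemma Fib.comp {E : Type*} [Fintype E] {f : G → D} {g : D → E} {k l : ℤ} (h : Fib f k)
    (h' : Fib g l) : Fib (fun x => g (f x)) (k * l) := by
  intro F
  rw [h (fun y => F (g y)), h' F, mul_assoc]

/-- splitting a sum over G along fibres -/
lemma fsum (f : G → D) (φ : D → ℤ) (F : G → ℤ) :
    ∑ y, φ y * ∑ v, ind (f ⁻¹' {y}) v * F v = ∑ v, φ (f v) * F v := by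
  simp only [Finset.mul_sum]
  rw [Finset.sum_comm]
  refine Finset.sum_congr rfl fun v _ => ?_
  have := sum_ind_single (f v) (fun y => φ y * F v)
  rw [← this]
  refine Finset.sum_congr rfl fun y _ => ?_
  rw [ind_congr (X := f ⁻¹' {y}) (Y := ({f v} : Set D)) (x := v) (y := y)
    (by simp [eq_comm])]
  ring
end Fib

section FibHom
variable {G D : Type*} [AddCommGroup G] [Fintype G] [AddCommGroup D] [Fintype D]

lemma Fib.rr {f : G →+ D} {k : ℤ} (h : Fib f k) (X Y : Set D) (g : G) :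
    rr (f ⁻¹' X) (f ⁻¹' Y) g = k * rr X Y (f g) := by
  unfold Pool.Agent.Lib.MP_cd64ef_nt.rr
  rw [← h (fun y => ind X y * ind Y (-f g - y))]
  refine Finset.sum_congr rfl fun v _ => ?_
  simp [ind_preimage]

lemma Fib.TT {f : G →+ D} {k : ℤ} (h : Fib f k) (X Y Z : Set D) :
    TT (f ⁻¹' X) (f ⁻¹' Y) (f ⁻¹' Z) = k ^ 2 * TT X Y Z := by
  unfold Pool.Agent.Lib.MP_cd64ef_nt.TT
  simp only [h.rr, ind_preimage]
  rw [h (fun y => ind Z y * (k * Pool.Agent.Lib.MP_cd64ef_nt.rr X Y y))]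
  simp only [Finset.mul_sum]
  exact Finset.sum_congr rfl fun g _ => by ring

end FibHom

/-- critical triples -/
structure Crit {D : Type*} [AddCommGroup D] [Fintype D] (A B C : Set D) (s : ℤ) : Prop where
  size : sz A + sz B + sz C - Fintype.card D = 2 * s + 1
  tt : TT A B C = s * (s + 1)
  inA : ∀ x ∈ A, rr B C x ≤ s
  outA : ∀ x ∉ A, s + 1 ≤ rr B C x
  inB : ∀ x ∈ B, rr A C x ≤ s
  outB : ∀ x ∉ B, s + 1 ≤ rr A C x
  inC : ∀ x ∈ C, rr A B x ≤ s
  outC : ∀ x ∉ C, s + 1 ≤ rr A B x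

section Crit
variable {D : Type*} [AddCommGroup D] [Fintype D] {A B C : Set D} {s : ℤ}

lemma Crit.swap12 (h : Crit A B C s) : Crit B A C s where
  size := by have := h.size; omega
  tt := by rw [TT_swap12]; exact h.tt
  inA := h.inB
  outA := h.outB
  inB := h.inA
  outB := h.outA
  inC := fun x hx => by rw [rr_comm]; exact h.inC x hx
  outC := fun x hx => by rw [rr_comm]; exact h.outC x hx

lemma Crit.swap23 (h : Crit A B C s) : Crit A C B s where
  size := by have := h.size; omega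
  tt := by rw [TT_swap23]; exact h.tt
  inA := fun x hx => by rw [rr_comm]; exact h.inA x hx
  outA := fun x hx => by rw [rr_comm]; exact h.outA x hx
  inB := h.inC
  outB := h.outC
  inC := h.inB
  outC := h.outB

lemma Crit.shift (h : Crit A B C s) (e : D) : Crit A {x | x + e ∈ B} {x | x + -e ∈ C} s where
  size := by rw [sz_shift, sz_shift]; exact h.size
  tt := by rw [TT_shift]; exact h.tt
  inA := fun x hx => by
    rw [rr_shift_left, rr_shift_right]
    simpa using h.inA x hx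
  outA := fun x hx => by
    rw [rr_shift_left, rr_shift_right]
    simpa using h.outA x hx
  inB := fun x hx => by
    rw [rr_shift_right]
    simpa using h.inB _ hx
  outB := fun x hx => by
    rw [rr_shift_right]
    simpa using h.outB _ hx
  inC := fun x hx => by
    rw [rr_shift_right]
    simpa [sub_eq_add_neg] using h.inC _ hx
  outC := fun x hx => by
    rw [rr_shift_right]
    simpa [sub_eq_add_neg] using h.outC _ hx

lemma Crit.dual (h : Crit A B C s) : Crit Aᶜ B Cᶜ (sz B - s - 1) where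
  size := by rw [sz_compl, sz_compl]; have := h.size; omega
  tt := by
    rw [TT_compl, h.tt]
    have := h.size
    have h2 : (Fintype.card D : ℤ) - sz A - sz C = sz B - 2 * s - 1 := by omega
    rw [h2]; ring
  inA := fun x hx => by rw [rr_compl]; have := h.outA x hx; omega
  outA := fun x hx => by rw [rr_compl]; have := h.inA x (by simpa using hx); omega
  inB := fun x hx => by rw [rr_compl2]; have := h.inB x hx; have := h.size; omega
  outB := fun x hx => by rw [rr_compl2]; have := h.outB x hx; have := h.size; omega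
  inC := fun x hx => by rw [rr_comm, rr_compl, rr_comm]; have := h.outC x hx; omega
  outC := fun x hx => by
    rw [rr_comm, rr_compl, rr_comm]; have := h.inC x (by simpa using hx); omega

end Crit

/-- (A, B, C, t) is near the pull-back of the critical triple (A', B', C', s) along f -/
structure Near {G D : Type*} [AddCommGroup G] [Fintype G] [AddCommGroup D] [Fintype D]
    (f : G →+ D) (k : ℤ) (A' B' C' : Set D) (s : ℤ) (A B C : Set G) (t : ℤ) : Prop where
  fib : Fib f k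
  crit : Crit A' B' C' s
  lo : s * k + sz (A \ f ⁻¹' A') + sz (B \ f ⁻¹' B') + sz (C \ f ⁻¹' C') < t
  hi : t + sz (f ⁻¹' A' \ A) + sz (f ⁻¹' B' \ B) + sz (f ⁻¹' C' \ C) < (s + 1) * k

/-- (A, B, C, t) is near the pull-back of some critical triple -/
def InBasin {G : Type u} [AddCommGroup G] [Fintype G] (A B C : Set G) (t : ℤ) : Prop :=
  ∃ (D : Type u) (_ : AddCommGroup D) (_ : Fintype D) (f : G →+ D) (k : ℤ) (A' B' C' : Set D)
    (s : ℤ), Near f k A' B' C' s A B C t

section Near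
variable {G D : Type*} [AddCommGroup G] [Fintype G] [AddCommGroup D] [Fintype D]
  {f : G →+ D} {k : ℤ} {A' B' C' : Set D} {s : ℤ} {A B C : Set G} {t : ℤ}

lemma Near.swap12 (h : Near f k A' B' C' s A B C t) : Near f k B' A' C' s B A C t :=
  ⟨h.fib, h.crit.swap12, by have := h.lo; omega, by have := h.hi; omega⟩

lemma Near.swap23 (h : Near f k A' B' C' s A B C t) : Near f k A' C' B' s A C B t :=
  ⟨h.fib, h.crit.swap23, by have := h.lo; omega, by have := h.hi; omega⟩

lemma rr_in (hf : Fib f k) (hc : Crit A' B' C' s) (A B : Set G) (g : G) (hg : f g ∈ C') :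
    rr A B g ≤ s * k + sz (A \ f ⁻¹' A') + sz (B \ f ⁻¹' B') := by
  have h1 := rr_le_add A (f ⁻¹' A') B (f ⁻¹' B') g
  rw [hf.rr] at h1
  have h2 := hc.inC _ hg
  have h3 := hf.pos
  have : k * rr A' B' (f g) ≤ k * s := mul_le_mul_of_nonneg_left h2 (by omega)
  linarith

lemma rr_out (hf : Fib f k) (hc : Crit A' B' C' s) (A B : Set G) (g : G) (hg : f g ∉ C') :
    (s + 1) * k - sz (f ⁻¹' A' \ A) - sz (f ⁻¹' B' \ B) ≤ rr A B g := by
  have h1 := rr_le_add (f ⁻¹' A') A (f ⁻¹' B') B g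
  rw [hf.rr] at h1
  have h2 := hc.outC _ hg
  have h3 := hf.pos
  have : k * (s + 1) ≤ k * rr A' B' (f g) := mul_le_mul_of_nonneg_left h2 (by omega)
  linarith

lemma Phi_centre (hf : Fib f k) (hc : Crit A' B' C' s) (t : ℤ) :
    Phi (f ⁻¹' A') (f ⁻¹' B') (f ⁻¹' C') t = (t - s * k) * ((s + 1) * k - t) := by
  unfold Phi
  rw [hf.TT, hf.sz, hf.sz, hf.sz, hf.card, hc.tt]
  have := hc.size
  have h2 : k * sz A' + k * sz B' + k * sz C' - k * Fintype.card D = k * (2 * s + 1) := by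
    rw [← this]; ring
  rw [h2]; ring

lemma Phi_move (hf : Fib f k) (hc : Crit A' B' C' s) (A B C : Set G) (t : ℤ) :
    Phi A B C t ≤ Phi A B (f ⁻¹' C') t -
      ((s + 1) * k - t - sz (f ⁻¹' A' \ A) - sz (f ⁻¹' B' \ B)) * sz (C \ f ⁻¹' C') -
      (t - s * k - sz (A \ f ⁻¹' A') - sz (B \ f ⁻¹' B')) * sz (f ⁻¹' C' \ C) := by
  refine Phi_step A B C _ t _ _ (fun x hx => ?_) (fun x hx => ?_)
  · have := rr_in hf hc A B x hx; linarith
  · have := rr_out hf hc A B x hx; linarith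

lemma prod_step (P Z W j i : ℤ) (hj : 0 ≤ j) (hi : 0 ≤ i) (h : P ≤ Z * W - W * j - Z * i) :
    P ≤ (Z - j) * (W - i) := by
  have := mul_nonneg hj hi
  nlinarith

lemma Phi_le_two (hf : Fib f k) (hc : Crit A' B' C' s) (A B : Set G) (t : ℤ) :
    Phi A B (f ⁻¹' C') t ≤ (t - s * k - sz (A \ f ⁻¹' A') - sz (B \ f ⁻¹' B')) *
      ((s + 1) * k - t - sz (f ⁻¹' A' \ A) - sz (f ⁻¹' B' \ B)) := by
  have h0 := Phi_centre hf hc t
  have h1 := Phi_move hf hc.swap12.swap23 (f ⁻¹' B') (f ⁻¹' C') A t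
  rw [Set.sdiff_self, Set.sdiff_self, sz_empty] at h1
  rw [Phi_swap23 _ _ (f ⁻¹' A'), Phi_swap12 _ (f ⁻¹' A'), h0] at h1
  have h1' := prod_step _ (t - s * k) ((s + 1) * k - t) _ _ (sz_nonneg (A \ f ⁻¹' A'))
    (sz_nonneg (f ⁻¹' A' \ A)) (h1.trans (le_of_eq (by ring)))
  have h2 := Phi_move hf hc.swap23 A (f ⁻¹' C') B t
  rw [Set.sdiff_self, sz_empty] at h2
  rw [Phi_swap23 _ _ A, Phi_swap12 _ A] at h1'
  rw [Phi_swap23 A (f ⁻¹' C') B, Phi_swap23 A (f ⁻¹' C')] at h2
  refine prod_step _ _ _ _ _ (sz_nonneg _) (sz_nonneg _) ?_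
  linarith

lemma Phi_le_three (hf : Fib f k) (hc : Crit A' B' C' s) (A B C : Set G) (t : ℤ) :
    Phi A B C t ≤ (t - s * k - sz (A \ f ⁻¹' A') - sz (B \ f ⁻¹' B') - sz (C \ f ⁻¹' C')) *
      ((s + 1) * k - t - sz (f ⁻¹' A' \ A) - sz (f ⁻¹' B' \ B) - sz (f ⁻¹' C' \ C)) := by
  have h1 := Phi_move hf hc A B C t
  have h2 := Phi_le_two hf hc A B t
  refine prod_step _ _ _ _ _ (sz_nonneg _) (sz_nonneg _) ?_
  linarith

lemma Near.change (h : Near f k A' B' C' s A B C t) (C1 : Set G) (hp : 0 < Phi A B C1 t) :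
    Near f k A' B' C' s A B C1 t := by
  have h1 := Phi_move h.fib h.crit A B C1 t
  have h2 := Phi_le_two h.fib h.crit A B t
  have h3 := h.lo
  have h4 := h.hi
  have h5 := sz_nonneg (C \ f ⁻¹' C')
  have h6 := sz_nonneg (f ⁻¹' C' \ C)
  have h7 := sz_nonneg (C1 \ f ⁻¹' C')
  have h8 := sz_nonneg (f ⁻¹' C' \ C1)
  set z := t - s * k - sz (A \ f ⁻¹' A') - sz (B \ f ⁻¹' B') with hz
  set w := (s + 1) * k - t - sz (f ⁻¹' A' \ A) - sz (f ⁻¹' B' \ B) with hw
  have hz1 : 0 < z := by omega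
  have hw1 : 0 < w := by omega
  have ha : 0 ≤ w * sz (C1 \ f ⁻¹' C') := mul_nonneg hw1.le h7
  have hb : 0 ≤ z * sz (f ⁻¹' C' \ C1) := mul_nonneg hz1.le h8
  have hj : sz (C1 \ f ⁻¹' C') < z := by
    by_contra hn
    have : w * z ≤ w * sz (C1 \ f ⁻¹' C') := mul_le_mul_of_nonneg_left (by omega) hw1.le
    linarith
  have hi : sz (f ⁻¹' C' \ C1) < w := by
    by_contra hn
    have : z * w ≤ z * sz (f ⁻¹' C' \ C1) := mul_le_mul_of_nonneg_left (by omega) hz1.le
    linarith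
  exact ⟨h.fib, h.crit, by omega, by omega⟩

lemma Near.shift (h : Near f k A' B' C' s A B C t) (e : G) :
    Near f k A' {x | x + f e ∈ B'} {x | x + -f e ∈ C'} s A {x | x + e ∈ B} {x | x + -e ∈ C} t := by
  have key : ∀ (X : Set G) (X' : Set D) (e : G),
      sz ({x | x + e ∈ X} \ f ⁻¹' {x | x + f e ∈ X'}) = sz (X \ f ⁻¹' X') ∧
      sz (f ⁻¹' {x | x + f e ∈ X'} \ {x | x + e ∈ X}) = sz (f ⁻¹' X' \ X) := by
    intro X X' e
    constructor
    · rw [← sz_shift (X \ f ⁻¹' X') e]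
      congr 1; ext x; simp
    · rw [← sz_shift (f ⁻¹' X' \ X) e]
      congr 1; ext x; simp
  have k1 := key B B' e
  have k2 := key C C' (-e)
  rw [map_neg] at k2
  refine ⟨h.fib, h.crit.shift (f e), ?_, ?_⟩
  · rw [k1.1, k2.1]; exact h.lo
  · rw [k1.2, k2.2]; exact h.hi

lemma Near.dual (h : Near f k A' B' C' s A B C t) :
    Near f k A'ᶜ B' C'ᶜ (sz B' - s - 1) Aᶜ B Cᶜ (sz B - t) := by
  have key : ∀ (X : Set G) (X' : Set D),
      Xᶜ \ f ⁻¹' X'ᶜ = f ⁻¹' X' \ X ∧ f ⁻¹' X'ᶜ \ Xᶜ = X \ f ⁻¹' X' := by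
    intro X X'
    constructor <;> ext x <;> simp [and_comm]
  have hB := sz_eq_diff B (f ⁻¹' B')
  rw [h.fib.sz] at hB
  have h3 := h.lo
  have h4 := h.hi
  refine ⟨h.fib, h.crit.dual, ?_, ?_⟩
  · rw [(key A A').1, (key C C').1]; linarith
  · rw [(key A A').2, (key C C').2]; linarith

end Near

section InB
variable {G : Type u} [AddCommGroup G] [Fintype G] {A B C : Set G} {t : ℤ}

lemma InBasin.swap12 (h : InBasin A B C t) : InBasin B A C t := by
  obtain ⟨D, i1, i2, f, k, A', B', C', s, h⟩ := h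
  exact ⟨D, i1, i2, f, k, B', A', C', s, h.swap12⟩

lemma InBasin.swap23 (h : InBasin A B C t) : InBasin A C B t := by
  obtain ⟨D, i1, i2, f, k, A', B', C', s, h⟩ := h
  exact ⟨D, i1, i2, f, k, A', C', B', s, h.swap23⟩

lemma InBasin.swap13 (h : InBasin A B C t) : InBasin C B A t := h.swap12.swap23.swap12

lemma InBasin.change3 (h : InBasin A B C t) (C1 : Set G) (hp : 0 < Phi A B C1 t) :
    InBasin A B C1 t := by
  obtain ⟨D, i1, i2, f, k, A', B', C', s, h⟩ := h
  exact ⟨D, i1, i2, f, k, A', B', C', s, h.change C1 hp⟩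

lemma InBasin.change2 (h : InBasin A B C t) (B1 : Set G) (hp : 0 < Phi A B1 C t) :
    InBasin A B1 C t :=
  (h.swap23.change3 B1 (by rwa [Phi_swap23])).swap23

lemma InBasin.change1 (h : InBasin A B C t) (A1 : Set G) (hp : 0 < Phi A1 B C t) :
    InBasin A1 B C t :=
  (h.swap13.change3 A1 (by rwa [Phi_swap13])).swap13

lemma InBasin.shift (h : InBasin A B C t) (e : G) :
    InBasin A {x | x + e ∈ B} {x | x + -e ∈ C} t := by
  obtain ⟨D, i1, i2, f, k, A', B', C', s, h⟩ := h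
  exact ⟨D, i1, i2, f, k, _, _, _, _, h.shift e⟩

lemma InBasin.unshift (e : G) (h : InBasin A {x | x + e ∈ B} {x | x + -e ∈ C} t) :
    InBasin A B C t := by
  have := h.shift (-e)
  simpa using this

lemma InBasin.dual (h : InBasin A B C t) : InBasin Aᶜ B Cᶜ (sz B - t) := by
  obtain ⟨D, i1, i2, f, k, A', B', C', s, h⟩ := h
  exact ⟨D, i1, i2, f, k, _, _, _, _, h.dual⟩

lemma InBasin.undual (h : InBasin Aᶜ B Cᶜ (sz B - t)) : InBasin A B C t := by
  simpa using h.dual

lemma fib_trivial : Fib (0 : G →+ PUnit.{u + 1}) (Fintype.card G) := by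
  intro F
  simp

lemma inBasin_neg (ht : t < 0) (hp : 0 < Phi A B C t) : InBasin A B C t := by
  refine ⟨PUnit.{u + 1}, inferInstance, inferInstance, 0, _, ∅, ∅, ∅, -1, fib_trivial, ?_, ?_, ?_⟩
  · refine ⟨?_, ?_, ?_, ?_, ?_, ?_, ?_, ?_⟩ <;> simp [sz_empty, TT, ind_empty, rr_empty]
  · simp only [Set.preimage_empty, Set.sdiff_empty]
    unfold Phi at hp
    have := TT_nonneg A B C
    by_contra hn
    have h1 : t * (sz A + sz B + sz C - Fintype.card G) ≤ t * t :=
      mul_le_mul_of_nonpos_left (by linarith) ht.le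
    nlinarith
  · simp [sz_empty, ht]

lemma Phi_zero_le : Phi A B C 0 ≤ 0 := by
  have := TT_nonneg A B C
  unfold Phi
  linarith

lemma inBasin_degenerate (ht : t ≤ 0 ∨ sz B ≤ t) (hp : 0 < Phi A B C t) : InBasin A B C t := by
  rcases ht with ht | ht
  · rcases ht.lt_or_eq with ht | ht
    · exact inBasin_neg ht hp
    · subst ht
      have := Phi_zero_le (A := A) (B := B) (C := C)
      omega
  · rw [← Phi_dual] at hp
    rcases ht.lt_or_eq with ht | ht
    · exact (inBasin_neg (by omega) hp).undual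
    · rw [ht, sub_self] at hp
      have := Phi_zero_le (A := Aᶜ) (B := B) (C := Cᶜ)
      omega

end InB

end Pool.Agent.Lib.MP_cd64ef_nt
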