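import Pool.Agent.Lib.MP_cd64ef_nt.Local

set_option autoImplicit false

namespace Pool.Agent.Lib.MP_cd64ef_nt

open Finset

universe u

lemma jstep (Φ ΦU z Z1 W1 w1 ν i Ds : ℤ) (h0 : 0 < Φ) (h1 : Φ ≤ ΦU - z * ν - Ds)
    (h2 : ΦU ≤ Z1 * W1) (h3 : 1 ≤ Z1) (h4 : Z1 ≤ z) (h5 : W1 ≤ w1) (h7 : 0 ≤ ν)
    (h8 : Z1 ≤ i) (h9 : 0 ≤ Ds) (h10 : i * (1 + w1 - ν) ≤ Ds) : False := by
  have a1 : Z1 * ν ≤ z * ν := mul_le_mul_of_nonneg_right h4 h7
  by_cases hc : W1 ≤ ν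
  · have a2 : Z1 * W1 ≤ Z1 * ν := mul_le_mul_of_nonneg_left hc (by omega)
    linarith
  · have a2 : Z1 * (1 + w1 - ν) ≤ i * (1 + w1 - ν) := mul_le_mul_of_nonneg_right h8 (by omega)
    have a3 : Z1 * (W1 - ν) ≤ Z1 * (1 + w1 - ν) := mul_le_mul_of_nonneg_left (by omega) (by omega)
    linarith

lemma bstep (β z z1 W1 y ν e : ℤ) (h1 : z * (y + ν) - z1 * W1 ≤ β) (h2 : y + ν = z + W1 - z1)
    (h3 : z1 ≤ z) (h4 : 0 ≤ z1) (h5 : 0 ≤ ν) (h6 : 0 ≤ y) (h7 : e ≤ z - z1) : y * e ≤ β := by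
  have a1 : y * e ≤ y * (z - z1) := mul_le_mul_of_nonneg_left h7 h6
  have a2 : y * (z - z1) ≤ (z + W1) * (z - z1) :=
    mul_le_mul_of_nonneg_right (by omega) (by omega)
  rw [h2] at h1
  linarith

section
variable {G D : Type u} [AddCommGroup G] [Fintype G] [AddCommGroup D] [Fintype D]
  {f : G →+ D} {k : ℤ}

lemma sub_pair (ih : IH.{u} (Fintype.card G)) (hf : Fib f k) (x zb : D) (A B C : Set G)
    (z τ : ℤ) (hcard : sz (f ⁻¹' {x, -zb - x}) < Fintype.card G)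
    (hτ : τ = z + sz (f ⁻¹' {x, -zb - x} ∩ (A ∩ B))) (hz : 1 ≤ z)
    (hc : z < sz (f ⁻¹' {zb} ∩ C))
    (hpos : 0 < τ * (sz (f ⁻¹' {x, -zb - x} ∩ A) + sz (f ⁻¹' {x, -zb - x} ∩ B) +
      sz (f ⁻¹' {zb} ∩ C) - sz (f ⁻¹' {x, -zb - x})) - τ ^ 2 -
      TT (f ⁻¹' {x, -zb - x} ∩ A) B (f ⁻¹' {zb} ∩ C)) :
    SubOut (f ⁻¹' {x, -zb - x}) (f ⁻¹' {zb}) A B C z τ
      (τ * (sz (f ⁻¹' {x, -zb - x} ∩ A) + sz (f ⁻¹' {x, -zb - x} ∩ B) +
      sz (f ⁻¹' {zb} ∩ C) - sz (f ⁻¹' {x, -zb - x})) - τ ^ 2 -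
      TT (f ⁻¹' {x, -zb - x} ∩ A) B (f ⁻¹' {zb} ∩ C)) := by
  classical
  have fibre : ∀ g0 : G, f ⁻¹' {f g0} = {g | g - g0 ∈ f.ker} := by
    intro g0; ext g; simp [sub_eq_zero]
  obtain ⟨x0, rfl⟩ := hf.surj x
  by_cases he : f x0 = -zb - f x0
  · have e1 : zb = f (-x0 - x0) := by
      rw [map_sub, map_neg]; nth_rewrite 2 [he]; abel
    have e2 : f ⁻¹' {zb} = {g | g - (-x0 - x0) ∈ f.ker} := by rw [e1, fibre]
    rw [e2] at hc hpos ⊢
    refine sub_out ih f.ker (E := PUnit) 0 (fun _ => x0) (-x0 - x0) _ A B C z τ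
      (fun _ => by abel) ?_ hcard hτ hz hc hpos
    intro F
    rw [← he, Set.pair_eq_singleton, fibre, ← sum_coset, Fintype.sum_prod_type]
    simp
  · obtain ⟨g0, rfl⟩ := hf.surj zb
    rw [fibre g0] at hc hpos ⊢
    refine sub_out ih f.ker (E := ZMod 2) 1 (fun e => if e = 0 then x0 else -g0 - x0) g0 _
      A B C z τ ?_ ?_ hcard hτ hz hc hpos
    · intro e
      rcases (by decide : ∀ e : ZMod 2, e = 0 ∨ e = 1) e with rfl | rfl
      · simp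
      · simp
    · intro F
      rw [Fintype.sum_prod_type_right]
      have h2 : ∀ H : ZMod 2 → ℤ, ∑ e, H e = H 0 + H 1 := fun H => Fin.sum_univ_two H
      rw [h2]
      simp only [if_true, one_ne_zero, if_false]
      rw [sum_coset, sum_coset, ← fibre, ← fibre, ← Finset.sum_add_distrib]
      have h3 := fun v => sum_ind_pair he (fun y => ind (f ⁻¹' {y}) v * F v)
      refine Finset.sum_congr rfl fun v _ => ?_
      rw [map_sub, map_neg, ← h3 v]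
      have h4 := sum_ind_single (f v) (fun y => ind ({f x0, -f g0 - f x0} : Set D) y * F v)
      rw [ind_preimage, ← h4]
      refine Finset.sum_congr rfl fun y _ => ?_
      rw [ind_congr (X := f ⁻¹' {y}) (Y := ({f v} : Set D)) (x := v) (y := y)
        (by simp [eq_comm])]
      ring

variable {P' Q' C' : Set D} {s : ℤ} {A B C : Set G} {t : ℤ}

lemma hole_ge (hf : Fib f k) (hc : Crit P' Q' C' s) {W : Set D} {g : G} (hg : f g ∈ C')
    (hW : Sym W (f g)) (hWM : W ⊆ P' \ Q') (P Q : Set G) :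
    rr P Q g + rr (f ⁻¹' W \ P) Q g ≤ s * k + sz (P \ f ⁻¹' P') + sz (Q \ f ⁻¹' Q') := by
  have h1 := rr_flat hW P Q
  have h2 := rout_up hf hWM P Q g
  have h3 : rr (P' \ W) (Q' \ W) (f g) ≤ s :=
    (rr_mono Set.sdiff_subset Set.sdiff_subset _).trans (hc.inC _ hg)
  have h4 := mul_le_mul_of_nonneg_left h3 (show 0 ≤ k by have := hf.pos; omega)
  linarith

omit [AddCommGroup G] in
lemma sum_hole_ge (X : Set G) (F : G → ℤ) (c : ℤ) (h : ∀ g ∈ X, c ≤ F g) :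
    c * sz X ≤ ∑ g, ind X g * F g := by
  simp only [sz, Finset.mul_sum]
  refine Finset.sum_le_sum fun g _ => ?_
  by_cases hg : g ∈ X
  · rw [ind_of_mem hg]; have := h g hg; linarith
  · rw [ind_of_not hg]; simp

lemma local_out (ih : IH.{u} (Fintype.card G))
    (hn : Near f k P' Q' C' s (A ∪ B) (A ∩ B) C t) (hC : ∀ g ∈ C, rr A B g < t)
    (hq : t ≤ sz (A ∩ B)) (hpos : 0 < Phi A B C t) (z w : ℤ)
    (hz : z = t - s * k - sz ((A ∪ B) \ f ⁻¹' P') - sz ((A ∩ B) \ f ⁻¹' Q'))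
    (hw : w = (s + 1) * k - t - sz (f ⁻¹' P' \ (A ∪ B)) - sz (f ⁻¹' Q' \ (A ∩ B)))
    {zb : D} (hzb : zb ∈ C') {x : D} (hx : x ∈ Wz P' Q' zb)
    (hM : Phi A B C t + Om f P' Q' A B C t zb ≤ z * w) :
    ∃ S : Set G, S ⊆ f ⁻¹' {zb} ∧ f ⁻¹' {zb} ∩ C ⊆ S ∧
      (∀ g ∈ S, (w - sz (f ⁻¹' {zb} \ C)) * EX f A B {x, -zb - x} g ≤
        BE f A B C zb {x, -zb - x}) ∧
      ((∃ g ∈ f ⁻¹' {zb}, g ∉ S) → z * (w - sz (f ⁻¹' {zb} \ C)) ≤ Om f P' Q' A B C t zb) ∧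
      sz (f ⁻¹' {zb} \ C) + 2 ≤ sz (f ⁻¹' {zb} \ S) + sz (stabS (f ⁻¹' {zb} \ S) : Set G) := by
  have hf := hn.fib
  have hk := hf.pos
  have hWz : ({x, -zb - x} : Set D) ⊆ Wz P' Q' zb := by
    rintro y (rfl | rfl)
    · exact hx
    · exact (sym_Wz P' Q' zb x).2 hx
  have hWM : ({x, -zb - x} : Set D) ⊆ P' \ Q' := fun y hy => (hWz hy).1
  have hsym : ∀ g ∈ f ⁻¹' {zb}, Sym ({x, -zb - x} : Set D) (f g) := by
    intro g hg
    have : f g = zb := hg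
    rw [this]; exact sym_pair x zb
  have hBE := BE_pair f A B C zb x
  have hOm := BE_le_Om (f := f) A B C t zb hWz
  have hlo := hn.lo
  have hhi := hn.hi
  have n1 := sz_nonneg ((A ∪ B) \ f ⁻¹' P')
  have n2 := sz_nonneg (f ⁻¹' Q' \ (A ∩ B))
  have n3 := sz_nonneg (C \ f ⁻¹' C')
  have n4 := sz_nonneg (((A ∩ B) \ f ⁻¹' Q') \ f ⁻¹' {x, -zb - x})
  have n5 := sz_nonneg ((f ⁻¹' P' \ (A ∪ B)) \ f ⁻¹' {x, -zb - x})
  rw [sz_extra_out hWM] at n4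
  rw [sz_hole_out hWM] at n5
  have hcard : sz (f ⁻¹' {x, -zb - x}) < Fintype.card G := by
    by_contra hcon
    have e0 : (f ⁻¹' {x, -zb - x})ᶜ = ∅ := eq_empty_of_sz (by rw [sz_compl]; omega)
    have e1 : ∀ y, y ∈ P' \ Q' := by
      intro y
      obtain ⟨v, rfl⟩ := hf.surj y
      by_contra hv
      have : v ∈ (f ⁻¹' {x, -zb - x})ᶜ := fun h => hv (hWM h)
      rw [e0] at this
      exact this
    have e2 : P' = Set.univ := Set.eq_univ_of_forall fun y => (e1 y).1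
    have e3 : Q' = ∅ := Set.eq_empty_of_forall_notMem fun y => (e1 y).2
    have e4 := hn.crit.size
    rw [e2, e3, sz_univ, sz_empty] at e4
    rw [e3, Set.preimage_empty, Set.sdiff_empty] at hlo
    have e5 := sz_nonneg C'
    have : 0 ≤ s * k := mul_nonneg (by omega) (by omega)
    omega
  set U := f ⁻¹' {x, -zb - x} with hU
  set Z := f ⁻¹' {zb} with hZ
  have hi1 : sz (Z \ C) ≤ sz (f ⁻¹' C' \ C) := by
    refine sz_mono fun g hg => ⟨?_, hg.2⟩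
    have : f g = zb := hg.1
    simp only [Set.mem_preimage, this, hzb]
  have hi0 := sz_nonneg (Z \ C)
  have hcZ : sz (Z ∩ C) + sz (Z \ C) = k := by rw [sz_inter_add_diff, hZ, hf.fibre]
  have hUAB : sz (U ∩ A) + sz (U ∩ B) = sz U - sz (U \ (A ∪ B)) + sz (U ∩ (A ∩ B)) := by
    rw [← sz_union_add_inter, ← Set.inter_union_distrib_left, ← sz_inter_add_diff U (A ∪ B)]
    have : U ∩ A ∩ (U ∩ B) = U ∩ (A ∩ B) := by
      ext v; simp only [Set.mem_inter_iff]; tauto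
    rw [this]; ring
  have hq0 := sz_nonneg (U ∩ (A ∩ B))
  have ho0 := sz_nonneg (U \ (A ∪ B))
  set q := sz (U ∩ (A ∩ B)) with hqd
  set o := sz (U \ (A ∪ B)) with hod
  set i := sz (Z \ C) with hid
  set ν := sz ((A ∪ B) \ f ⁻¹' P') + sz ((A ∩ B) \ f ⁻¹' Q') + sz (f ⁻¹' P' \ (A ∪ B)) +
    sz (f ⁻¹' Q' \ (A ∩ B)) - o - q with hν
  have hν0 : 0 ≤ ν := by omega
  have hz1 : 1 ≤ z := by omega
  have hy1 : 1 ≤ w - i := by linarith
  have hkk : sz (Z ∩ C) = z + (w - i) + ν + o + q := by linarith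
  set Ds := ∑ g, ind (Z \ C) g * (t - rr (A ∪ B) (A ∩ B) g - rr (U \ (A ∪ B)) (A ∩ B) g)
    with hDs
  have hD0 : z * i ≤ Ds := by
    refine sum_hole_ge _ _ _ fun g hg => ?_
    have hg' : f g = zb := hg.1
    have := hole_ge hf hn.crit (by rw [hg']; exact hzb) (hsym g hg.1) hWM (A ∪ B) (A ∩ B)
    linarith
  set ΦU := (z + q) * (sz (U ∩ A) + sz (U ∩ B) + sz (Z ∩ C) - sz U) - (z + q) ^ 2 -
      TT (U ∩ A) B (Z ∩ C) with hΦU
  have hβ : BE f A B C zb {x, -zb - x} = z * (w - i + ν) - ΦU := by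
    rw [hBE, hΦU, hUAB, hkk]; ring
  have hmain : Phi A B C t ≤ ΦU - z * ν - (Ds - z * i) := by linarith
  have hzν := mul_nonneg (show 0 ≤ z by omega) hν0
  have hsub : SubOut U Z A B C z (z + q) ΦU :=
    sub_pair ih hf x zb A B C z (z + q) hcard rfl hz1 (by rw [← hZ]; omega)
      (show 0 < ΦU by linarith)
  obtain ⟨S, L1, z1, w1, W1, s1, s2, s3, s4, s5, s6, s7, s8, s9, s10, s11⟩ := hsub
  have hJ0 := sz_nonneg ((Z ∩ C) \ S)
  have hSC := sz_nonneg (S \ C)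
  have hoff : (∃ g ∈ Z, g ∉ S) → z1 - sz ((Z ∩ C) \ S) + W1 ≤ i := by
    rintro ⟨g, g1, g2⟩
    have a1 := s2.sz_le (x := g) ⟨g1, g2⟩
    have a2 : sz (Z \ S) ≤ sz ((Z \ C) ∪ ((Z ∩ C) \ S)) := by
      refine sz_mono fun v hv => ?_
      by_cases hvC : v ∈ C
      · exact Or.inr ⟨⟨hv.1, hvC⟩, hv.2⟩
      · exact Or.inl ⟨hv.1, hvC⟩
    have a3 := sz_union_le (Z \ C) ((Z ∩ C) \ S)
    omega
  have hJ : Z ∩ C ⊆ S := by
    intro g1 hg1
    by_contra hg1S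
    have a1 := s4 g1 hg1.1 hg1S
    have a2 := hC g1 hg1.2
    have a3 := rr_ge_local (hsym g1 hg1.1) A B
    have a4 := rout_low hf hWM (A ∪ B) (A ∩ B) g1
    have hg1' : f g1 = zb := hg1.1
    have a5 : (z + (1 + w1 - ν)) * i ≤ Ds := by
      refine sum_hole_ge _ _ _ fun g hg => ?_
      have hg' : f g = zb := hg.1
      have b1 := rr_flat (hsym g hg.1) (A ∪ B) (A ∩ B)
      have b2 := rout_up hf hWM (A ∪ B) (A ∩ B) g
      rw [hg'] at b2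
      rw [hg1'] at a4
      rw [← hU] at b1 b2 a3 a4
      linarith
    have a6 := hoff ⟨g1, hg1.1, hg1S⟩
    exact jstep _ ΦU z (z1 - sz ((Z ∩ C) \ S)) W1 w1 ν i (Ds - z * i) hpos hmain s9 (by omega)
      (by omega) s8 hν0 (by omega) (by linarith) (by linarith)
  have hJz : sz ((Z ∩ C) \ S) = 0 := by rw [Set.sdiff_eq_empty.2 hJ, sz_empty]
  rw [hJz, sub_zero] at s9 s10 hoff
  rw [hJz] at s5
  refine ⟨S, s1, hJ, fun g hg => ?_, fun hex => ?_, ?_⟩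
  · refine bstep _ z z1 W1 (w - i) ν _ (by linarith) (by linarith) s6 (by omega) hν0 (by omega) ?_
    have := s3 g hg
    rw [EX, ← hU]
    linarith
  · have a1 := hoff hex
    have a2 : z1 * W1 ≤ z * i := mul_le_mul s6 (by omega) (by omega) (by omega)
    linarith
  · have a1 : sz (L1 : Set G) ≤ sz (stabS (Z \ S) : Set G) := sz_mono s2.le
    have a2 : sz (Z \ C) ≤ sz ((Z \ S) ∪ (S \ C)) := by
      refine sz_mono fun v hv => ?_
      by_cases hvS : v ∈ S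
      · exact Or.inr ⟨hvS, hv.2⟩
      · exact Or.inl ⟨hv.1, hvS⟩
    have a3 := sz_union_le (Z \ S) (S \ C)
    omega

end

end Pool.Agent.Lib.MP_cd64ef_nt
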