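import Pool.Agent.Lib.MP_cd64ef_nt.Main

set_option autoImplicit false

namespace Pool.Agent.Lib.MP_cd64ef_nt

open Finset

universe u

/-- a finitely generated abelian group maps to a finite group injectively on a given finite set -/
lemma exists_finite_model (K : Type u) [AddCommGroup K] [AddGroup.FG K] (S : Set K)
    (hS : S.Finite) :
    ∃ (G' : Type u) (_ : AddCommGroup G') (_ : Fintype G') (φ : K →+ G'), Set.InjOn φ S := by
  classical
  have h1 : ∀ d : K, ∃ N : AddSubgroup K, N.FiniteIndex ∧ (d ≠ 0 → d ∉ N) := by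
    intro d
    by_cases hd : d = 0
    · exact ⟨⊤, inferInstance, fun h => absurd hd h⟩
    · obtain ⟨c, hc⟩ := CharacterModule.exists_character_apply_ne_zero_of_ne_zero hd
      let c' : K →+ AddCircle (1 : ℚ) := c
      have ht : IsAddTorsion (AddCircle (1 : ℚ)) := by
        intro x
        induction x using QuotientAddGroup.induction_on with
        | H a =>
          have : Fact ((0 : ℚ) < 1) := ⟨one_pos⟩
          exact AddCircle.isOfFinAddOrder_iff_exists_rat_eq_div.2 ⟨a, by simp⟩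
      have : Finite c'.range := AddCommGroup.finite_of_fg_isAddTorsion _ (ht.addSubgroup _)
      exact ⟨c'.ker, inferInstance, fun _ => hc⟩
  choose N hN1 hN2 using h1
  have hD : (Set.image2 (fun x y => x - y) S S).Finite := hS.image2 _ hS
  have hfi : (⨅ d ∈ hD.toFinset, N d).FiniteIndex :=
    AddSubgroup.finiteIndex_iInf' _ fun d _ => hN1 d
  refine ⟨K ⧸ (⨅ d ∈ hD.toFinset, N d), inferInstance, Fintype.ofFinite _,
    QuotientAddGroup.mk' _, ?_⟩
  intro x hx y hy hxy
  by_contra hne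
  have h2 : x - y ∈ ⨅ d ∈ hD.toFinset, N d := by
    rw [← QuotientAddGroup.eq_iff_sub_mem]; exact hxy
  simp only [AddSubgroup.mem_iInf] at h2
  exact hN2 _ (sub_ne_zero.2 hne) (h2 _ (by simpa using ⟨x, hx, y, hy, rfl⟩))

lemma Crit.aperiodic {D : Type u} [AddCommGroup D] [Fintype D] {A B C : Set D} {s : ℤ}
    (h : Crit A B C s) (H : AddSubgroup D) (hC : Per H C) {d : D} (hd : d ∈ H) : d = 0 := by
  classical
  let _ : Fintype (D ⧸ H) := Fintype.ofFinite _
  have hp := fib_of_surj (QuotientAddGroup.mk' H) (QuotientAddGroup.mk'_surjective _)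
  rw [QuotientAddGroup.ker_mk'] at hp
  have hA : Per H A := by
    have : A = {g | rr B C g < s + 1} := by
      ext x
      simp only [Set.mem_ofPred_eq]
      constructor
      · intro hx; have := h.inA x hx; omega
      · intro hx; by_contra hn; have := h.outA x hn; omega
    rw [this]; exact hC.thr B _
  have hB : Per H B := by
    have : B = {g | rr A C g < s + 1} := by
      ext x
      simp only [Set.mem_ofPred_eq]
      constructor
      · intro hx; have := h.inB x hx; omega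
      · intro hx; by_contra hn; have := h.outB x hn; omega
    rw [this]; exact hC.thr A _
  have h1 := h.size
  have h2 := h.tt
  rw [← hA.eq_preimage, ← hB.eq_preimage, ← hC.eq_preimage] at h1 h2
  rw [hp.sz, hp.sz, hp.sz, hp.card] at h1
  rw [hp.TT] at h2
  have d1 : sz (H : Set D) ∣ 2 * s + 1 := by
    rw [← h1]
    exact Dvd.dvd.sub (Dvd.dvd.add (Dvd.dvd.add (dvd_mul_right _ _) (dvd_mul_right _ _))
      (dvd_mul_right _ _)) (dvd_mul_right _ _)
  have d2 : sz (H : Set D) ∣ s * (s + 1) := by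
    rw [← h2, pow_two, mul_assoc]; exact dvd_mul_right _ _
  have d3 : sz (H : Set D) ∣ 1 := by
    have : (1 : ℤ) = (2 * s + 1) * (2 * s + 1) - 4 * (s * (s + 1)) := by ring
    rw [this]
    exact Dvd.dvd.sub (Dvd.dvd.mul_right d1 _) (Dvd.dvd.mul_left d2 _)
  have d4 := Int.le_of_dvd one_pos d3
  by_contra hne
  have := sz_lt_of_ssubset (X := {0}) (Y := (H : Set D)) (by simp) hd (by simpa using hne)
  rw [sz_single] at this
  omega

open scoped Pointwise

lemma add_ker_eq {G D : Type u} [AddCommGroup G] [Fintype G] [AddCommGroup D] [Fintype D]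
    {f : G →+ D} {k : ℤ} (hf : Fib f k) (A : Set G) (A' : Set D)
    (h : sz (f ⁻¹' A' \ A) < k) : (A ∩ f ⁻¹' A') + (f.ker : Set G) = f ⁻¹' A' := by
  ext x
  constructor
  · rintro ⟨a, ha, e, he, rfl⟩
    have he' : f e = 0 := he
    have := ha.2
    simp only [Set.mem_preimage, map_add, he', add_zero] at this ⊢
    exact this
  · intro hx
    by_contra hn
    have : f ⁻¹' {f x} ⊆ f ⁻¹' A' \ A := by
      intro v hv
      have hv' : f v = f x := hv
      have h1 : v ∈ f ⁻¹' A' := by simp only [Set.mem_preimage, hv']; exact hx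
      refine ⟨h1, fun hA => hn ⟨v, ⟨hA, h1⟩, x - v, ?_, by simp⟩⟩
      simp [hv']
    have := sz_mono this
    rw [hf.fibre] at this
    omega

/-- the structure theorem in a finite group -/
theorem finite_struct {G : Type u} [AddCommGroup G] [Fintype G] (A B C : Set G) (t : ℤ)
    (hC : ∀ g, g ∈ C ↔ rr A B g < t) (hpos : 0 < Phi A B C t) (s u : ℤ)
    (ht : t = s * sz (stabS C : Set G) + u) (hu1 : 1 ≤ u) (hu2 : u ≤ sz (stabS C : Set G)) :
    ∃ A1 B1 : Set G, A1 ⊆ A ∧ B1 ⊆ B ∧ sz (A \ A1) + sz (B \ B1) < u ∧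
      (∀ g, 1 ≤ rr A1 B1 g ↔ u ≤ rr A1 B1 g) ∧ (∀ g, u ≤ rr A1 B1 g ↔ u ≤ rr A B g) ∧
      (∀ g, t ≤ rr A1 B1 g ↔ t ≤ rr A B g) ∧
      (∀ e ∈ stabS C, ∀ g, 1 ≤ rr A1 B1 (g + e) ↔ 1 ≤ rr A1 B1 g) ∧
      u + (sz (A1 + (stabS C : Set G)) - sz A1 + (sz (B1 + (stabS C : Set G)) - sz B1)) <
        sz (stabS C : Set G) ∧
      sz Cᶜ + (2 * s + 1) * sz (stabS C : Set G) =
        sz (A1 + (stabS C : Set G)) + sz (B1 + (stabS C : Set G)) ∧
      Phi A B C t ≤ (u - (sz (A \ A1) + sz (B \ B1))) * (sz (stabS C : Set G) - u -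
        (sz (A1 + (stabS C : Set G)) - sz A1 + (sz (B1 + (stabS C : Set G)) - sz B1))) := by
  obtain ⟨D, i1, i2, f, k, A', B', C', s0, hn⟩ := thmB G A B C t hpos
  have hf := hn.fib
  have hk := hf.pos
  have hlo := hn.lo
  have hhi := hn.hi
  have n1 := sz_nonneg (A \ f ⁻¹' A')
  have n2 := sz_nonneg (B \ f ⁻¹' B')
  have n3 := sz_nonneg (C \ f ⁻¹' C')
  have n4 := sz_nonneg (f ⁻¹' A' \ A)
  have n5 := sz_nonneg (f ⁻¹' B' \ B)
  have n6 := sz_nonneg (f ⁻¹' C' \ C)
  have hCC : C = f ⁻¹' C' := by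
    ext g
    rw [hC]
    constructor
    · intro hg
      by_contra hg'
      have := rr_out hf hn.crit A B g hg'
      linarith
    · intro hg
      have := rr_in hf hn.crit A B g hg
      linarith
  have hH : stabS C = f.ker := by
    ext e
    rw [AddMonoidHom.mem_ker]
    constructor
    · intro he
      refine hn.crit.aperiodic (stabS C') (per_stabS C') fun y => ?_
      obtain ⟨v, rfl⟩ := hf.surj y
      have := he v
      rw [hCC] at this
      simpa using this
    · intro he x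
      rw [hCC]; simp [he]
  rw [hH, hf.ker] at ht hu2 ⊢
  have hs : s = s0 := by
    have a1 : s0 * k < (s + 1) * k := by linarith
    have a2 : s * k < (s0 + 1) * k := by linarith
    have a3 := lt_of_mul_lt_mul_right a1 (show 0 ≤ k by omega)
    have a4 := lt_of_mul_lt_mul_right a2 (show 0 ≤ k by omega)
    omega
  subst hs
  have e1 : ∀ (X : Set G) (Y : Set G), X \ (X ∩ Y) = X \ Y := fun X Y => Set.sdiff_self_inter
  have e2 : ∀ (X : Set G) (Y : Set G), Y \ (X ∩ Y) = Y \ X := fun X Y => Set.sdiff_inter_self_eq_sdiff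
  have e3 : ∀ (X : Set G) (Y : Set G), (X ∩ Y) \ Y = ∅ :=
    fun X Y => Set.sdiff_eq_empty.2 Set.inter_subset_right
  have e4 : ∀ (X : Set G) (Y : Set G), sz Y - sz (X ∩ Y) = sz (Y \ X) := by
    intro X Y
    have := sz_inter_add_diff Y X
    rw [Set.inter_comm] at this
    omega
  have hcase : ∀ g, (1 ≤ rr A' B' (f g) ∧ u < rr (A ∩ f ⁻¹' A') (B ∩ f ⁻¹' B') g ∧
      u < rr A B g) ∨
      (rr A' B' (f g) = 0 ∧ rr (A ∩ f ⁻¹' A') (B ∩ f ⁻¹' B') g = 0 ∧ rr A B g < u) := by
    intro g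
    have b1 := rr_le_add (f ⁻¹' A') (A ∩ f ⁻¹' A') (f ⁻¹' B') (B ∩ f ⁻¹' B') g
    have b2 := rr_le_add A (f ⁻¹' A') B (f ⁻¹' B') g
    have b3 := rr_mono (Set.inter_subset_left (s := A) (t := f ⁻¹' A'))
      (Set.inter_subset_left (s := B) (t := f ⁻¹' B')) g
    have b4 := rr_mono (Set.inter_subset_right (s := A) (t := f ⁻¹' A'))
      (Set.inter_subset_right (s := B) (t := f ⁻¹' B')) g
    have b5 := rr_nonneg A' B' (f g)
    have b6 := rr_nonneg (A ∩ f ⁻¹' A') (B ∩ f ⁻¹' B') g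
    rw [e2, e2] at b1
    rw [hf.rr] at b1 b2 b4
    by_cases h1 : 1 ≤ rr A' B' (f g)
    · have := mul_le_mul_of_nonneg_left h1 (show 0 ≤ k by omega)
      exact Or.inl ⟨h1, by linarith, by linarith⟩
    · have h0 : rr A' B' (f g) = 0 := by omega
      rw [h0] at b2 b4
      exact Or.inr ⟨h0, by linarith, by linarith⟩
  refine ⟨A ∩ f ⁻¹' A', B ∩ f ⁻¹' B', Set.inter_subset_left, Set.inter_subset_left, ?_,
    fun g => ?_, fun g => ?_, fun g => ?_, fun e he g => ?_, ?_, ?_, ?_⟩
  · rw [e1, e1]; linarith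
  · rcases hcase g with ⟨-, h2, -⟩ | ⟨-, h2, -⟩ <;> omega
  · rcases hcase g with ⟨-, h2, h3⟩ | ⟨-, h2, h3⟩ <;> omega
  · by_cases hg : f g ∈ C'
    · have b1 := rr_in hf hn.crit (A ∩ f ⁻¹' A') (B ∩ f ⁻¹' B') g hg
      have b2 := rr_in hf hn.crit A B g hg
      rw [e3, e3, sz_empty] at b1
      constructor <;> intro h <;> linarith
    · have b1 := rr_out hf hn.crit (A ∩ f ⁻¹' A') (B ∩ f ⁻¹' B') g hg
      have b2 := rr_out hf hn.crit A B g hg
      rw [e2, e2] at b1
      constructor <;> intro h <;> linarith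
  · have he' : f (g + e) = f g := by
      have : f e = 0 := he
      rw [map_add, this, add_zero]
    rcases hcase g with ⟨h1, h2, -⟩ | ⟨h1, h2, -⟩ <;>
      rcases hcase (g + e) with ⟨h3, h4, -⟩ | ⟨h3, h4, -⟩ <;> rw [he'] at h3 <;> omega
  · rw [add_ker_eq hf A A' (by linarith), add_ker_eq hf B B' (by linarith), e4, e4]
    linarith
  · rw [add_ker_eq hf A A' (by linarith), add_ker_eq hf B B' (by linarith), sz_compl, hCC,
      hf.sz, hf.sz, hf.sz, hf.card, ← hn.crit.size]
    ring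
  · rw [add_ker_eq hf A A' (by linarith), add_ker_eq hf B B' (by linarith), e4, e4, e1, e1]
    have := Phi_le_two hf hn.crit A B t
    rw [← hCC] at this
    refine this.trans (le_of_eq ?_)
    rw [ht]; ring

end Pool.Agent.Lib.MP_cd64ef_nt
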