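import Pool.Agent.Lib.MP_cd64ef_nt.Refine

set_option autoImplicit false

namespace Pool.Agent.Lib.MP_cd64ef_nt

open Finset

universe u

lemma sum_ind_pair {D : Type*} [Fintype D] {x x' : D} (h : x ≠ x') (F : D → ℤ) :
    ∑ y, ind ({x, x'} : Set D) y * F y = F x + F x' := by
  rw [← sum_ind_single x F, ← sum_ind_single x' F, ← Finset.sum_add_distrib]
  refine Finset.sum_congr rfl fun y _ => ?_
  by_cases h1 : y = x
  · rw [ind_of_mem (by simp [h1]), ind_of_mem (by simp [h1]), ind_of_not (by simp [h1, h])]; ring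
  · by_cases h2 : y = x'
    · rw [ind_of_mem (by simp [h2]), ind_of_not (by simp [h1]), ind_of_mem (by simp [h2])]; ring
    · rw [ind_of_not (by simp [h1, h2]), ind_of_not (by simp [h1]), ind_of_not (by simp [h2])]
      ring

lemma sym_pt (a b p q a' b' p' q' : ℤ) (ha : a = 0 ∨ a = 1) (hb : b = 0 ∨ b = 1)
    (hp : p = 0 ∨ p = 1) (hq : q = 0 ∨ q = 1) (ha' : a' = 0 ∨ a' = 1) (hb' : b' = 0 ∨ b' = 1)
    (hp' : p' = 0 ∨ p' = 1) (hq' : q' = 0 ∨ q' = 1) (h1 : q ≤ p) (h2 : q' ≤ p') (V : ℤ)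
    (hV : V = p * (1 - q) * (p' * (1 - q'))) :
    a * (1 - V) * (b' * (1 - V)) + b * (1 - V) * (a' * (1 - V)) ≤
      p * q' + q * p' + (a + b - a * b) * (1 - p) + a * b * (1 - q) * (1 - V) +
        (a' + b' - a' * b') * (1 - p') + a' * b' * (1 - q') * (1 - V) := by
  subst hV
  rcases ha with rfl | rfl <;> rcases hb with rfl | rfl <;> rcases hp with rfl | rfl <;>
    rcases hq with rfl | rfl <;> rcases ha' with rfl | rfl <;> rcases hb' with rfl | rfl <;>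
    rcases hp' with rfl | rfl <;> rcases hq' with rfl | rfl <;> omega

section
variable {G D : Type*} [AddCommGroup G] [Fintype G] [AddCommGroup D] [Fintype D]

/-- W is invariant under the reflection y ↦ -zb-y -/
def Sym (W : Set D) (zb : D) : Prop := ∀ y, -zb - y ∈ W ↔ y ∈ W

omit [Fintype D] in
lemma sym_Wz (P' Q' : Set D) (zb : D) : Sym (Wz P' Q' zb) zb := by
  intro y
  have : -zb - (-zb - y) = y := by abel
  simp only [Wz, Set.mem_ofPred_eq, this, and_comm]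

omit [Fintype D] in
lemma sym_pair (x zb : D) : Sym {x, -zb - x} zb := by
  intro y
  simp only [Set.mem_insert_iff, Set.mem_singleton_iff]
  constructor
  · rintro (h | h)
    · right; rw [← h]; abel
    · left; exact sub_right_injective h
  · rintro (h | h)
    · right; rw [h]
    · left; rw [h]; abel

lemma double {W : Set D} {zb : D} (hW : Sym W zb) (F : D → ℤ)
    (h : ∀ x ∈ W, ∑ y, ind ({x, -zb - x} : Set D) y * F y ≤ 0) :
    ∑ y, ind W y * F y ≤ 0 := by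
  have h1 : ∑ y, ind W y * F y = ∑ y, ind W y * F (-zb - y) := by
    rw [← sum_refl zb (fun y => ind W y * F y)]
    exact Finset.sum_congr rfl fun y _ => by rw [ind_congr (hW y)]
  have h2 : ∑ y, ind W y * F y + ∑ y, ind W y * F (-zb - y) ≤ 0 := by
    rw [← Finset.sum_add_distrib]
    refine Finset.sum_nonpos fun x _ => ?_
    by_cases hx : x ∈ W
    · have h3 := h x hx
      rw [ind_of_mem hx]
      by_cases he : x = -zb - x
      · rw [← he] at h3 ⊢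
        rw [Set.pair_eq_singleton, sum_ind_single] at h3
        linarith
      · rw [sum_ind_pair he] at h3
        linarith
    · rw [ind_of_not hx]; simp
  linarith

variable {f : G →+ D} {W : Set D} {g : G}

omit [Fintype G] [Fintype D] in
lemma ind_sym (hW : Sym W (f g)) (v : G) : ind (f ⁻¹' W) (-g - v) = ind (f ⁻¹' W) v :=
  ind_congr (by simpa using hW (f v))

omit [Fintype D] in
lemma rr_sym_in (hW : Sym W (f g)) (X Y : Set G) :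
    rr (f ⁻¹' W ∩ X) (f ⁻¹' W ∩ Y) g = rr (f ⁻¹' W ∩ X) Y g := by
  simp only [rr, ind_inter, ind_sym hW]
  refine Finset.sum_congr rfl fun v _ => ?_
  rcases ind_cases (f ⁻¹' W) v with h | h <;> rw [h] <;> ring

omit [Fintype D] in
lemma rr_sym_out (hW : Sym W (f g)) (X Y : Set G) :
    rr (X \ f ⁻¹' W) (Y \ f ⁻¹' W) g = rr (X \ f ⁻¹' W) Y g := by
  simp only [rr, ind_diff, ind_sym hW]
  refine Finset.sum_congr rfl fun v _ => ?_
  rcases ind_cases (f ⁻¹' W) v with h | h <;> rw [h] <;> ring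

omit [Fintype D] in
lemma rr_sym_all (hW : Sym W (f g)) (Y : Set G) :
    rr (f ⁻¹' W) Y g = sz (f ⁻¹' W ∩ Y) := by
  rw [← sum_ind_refl _ g]
  simp only [rr, ind_inter, ind_sym hW]

omit [Fintype D] in
lemma rr_flat_in (hW : Sym W (f g)) (P Q : Set G) :
    rr (f ⁻¹' W ∩ P) Q g + rr (f ⁻¹' W \ P) Q g = sz (f ⁻¹' W ∩ Q) := by
  rw [← rr_sym_all hW, rr_split P (f ⁻¹' W), Set.inter_comm]

omit [Fintype D] in
lemma rr_local (hW : Sym W (f g)) (A B : Set G) :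
    rr (f ⁻¹' W ∩ A) B g = sz (f ⁻¹' W ∩ (A ∩ B)) - rr (f ⁻¹' W \ (A ∪ B)) (A ∩ B) g +
      rr (f ⁻¹' W ∩ (A \ B)) (B \ A) g := by
  rw [← rr_flat_in hW (A ∪ B), ← rr_sym_in hW A, rr_dyson, ← rr_sym_in hW (A ∪ B),
    ← rr_sym_in hW (A \ B)]
  have e1 : f ⁻¹' W ∩ A ∪ f ⁻¹' W ∩ B = f ⁻¹' W ∩ (A ∪ B) := by
    rw [Set.inter_union_distrib_left]
  have e2 : f ⁻¹' W ∩ A ∩ (f ⁻¹' W ∩ B) = f ⁻¹' W ∩ (A ∩ B) := by
    ext v; simp only [Set.mem_inter_iff]; tauto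
  have e3 : ∀ A B : Set G, (f ⁻¹' W ∩ A) \ (f ⁻¹' W ∩ B) = f ⁻¹' W ∩ (A \ B) := by
    intro A B; ext v; simp only [Set.mem_inter_iff, Set.mem_sdiff]; tauto
  rw [e1, e2, e3, e3]; ring

omit [Fintype D] in
lemma rr_flat (hW : Sym W (f g)) (P Q : Set G) :
    rr P Q g + rr (f ⁻¹' W \ P) Q g =
      sz (f ⁻¹' W ∩ Q) + rr (P \ f ⁻¹' W) (Q \ f ⁻¹' W) g := by
  rw [← rr_flat_in hW P, rr_sym_out hW, rr_split (f ⁻¹' W) P]; ring

omit [Fintype D] in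
lemma rr_ge_local (hW : Sym W (f g)) (A B : Set G) :
    rr (f ⁻¹' W ∩ A) B g + rr ((A ∪ B) \ f ⁻¹' W) ((A ∩ B) \ f ⁻¹' W) g ≤ rr A B g := by
  rw [rr_split (f ⁻¹' W) A, ← rr_sym_out hW A, rr_dyson (A \ f ⁻¹' W)]
  have e1 : A \ f ⁻¹' W ∪ B \ f ⁻¹' W = (A ∪ B) \ f ⁻¹' W := by
    rw [Set.union_sdiff_distrib]
  have e2 : A \ f ⁻¹' W ∩ (B \ f ⁻¹' W) = (A ∩ B) \ f ⁻¹' W := by
    ext v; simp only [Set.mem_inter_iff, Set.mem_sdiff]; tauto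
  rw [e1, e2]
  have := rr_nonneg ((A \ f ⁻¹' W) \ (B \ f ⁻¹' W)) ((B \ f ⁻¹' W) \ (A \ f ⁻¹' W)) g
  linarith

variable {k : ℤ} {P' Q' : Set D}

omit [Fintype D] in
lemma sz_extra_out (hWM : W ⊆ P' \ Q') (Q : Set G) :
    sz ((Q \ f ⁻¹' Q') \ f ⁻¹' W) = sz (Q \ f ⁻¹' Q') - sz (f ⁻¹' W ∩ Q) := by
  rw [← sz_inter_add_diff (Q \ f ⁻¹' Q') (f ⁻¹' W)]
  have : (Q \ f ⁻¹' Q') ∩ f ⁻¹' W = f ⁻¹' W ∩ Q := by
    ext v
    simp only [Set.mem_inter_iff, Set.mem_sdiff, Set.mem_preimage]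
    have := fun h => (@hWM (f v) h).2
    tauto
  rw [this]; ring

omit [Fintype D] in
lemma sz_hole_out (hWM : W ⊆ P' \ Q') (P : Set G) :
    sz ((f ⁻¹' P' \ P) \ f ⁻¹' W) = sz (f ⁻¹' P' \ P) - sz (f ⁻¹' W \ P) := by
  rw [← sz_inter_add_diff (f ⁻¹' P' \ P) (f ⁻¹' W)]
  have : (f ⁻¹' P' \ P) ∩ f ⁻¹' W = f ⁻¹' W \ P := by
    ext v
    simp only [Set.mem_inter_iff, Set.mem_sdiff, Set.mem_preimage]
    have := fun h => (@hWM (f v) h).1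
    tauto
  rw [this]; ring

lemma rout_up (hf : Fib f k) (hWM : W ⊆ P' \ Q') (P Q : Set G) (g : G) :
    rr (P \ f ⁻¹' W) (Q \ f ⁻¹' W) g ≤ k * rr (P' \ W) (Q' \ W) (f g) +
      sz (P \ f ⁻¹' P') + sz (Q \ f ⁻¹' Q') - sz (f ⁻¹' W ∩ Q) := by
  have h1 := rr_le_add (P \ f ⁻¹' W) (f ⁻¹' (P' \ W)) (Q \ f ⁻¹' W) (f ⁻¹' (Q' \ W)) g
  rw [hf.rr] at h1
  have h2 : sz ((P \ f ⁻¹' W) \ f ⁻¹' (P' \ W)) ≤ sz (P \ f ⁻¹' P') := by
    refine sz_mono fun v => ?_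
    simp only [Set.mem_sdiff, Set.mem_preimage]; tauto
  have h3 : sz ((Q \ f ⁻¹' W) \ f ⁻¹' (Q' \ W)) ≤ sz ((Q \ f ⁻¹' Q') \ f ⁻¹' W) := by
    refine sz_mono fun v => ?_
    simp only [Set.mem_sdiff, Set.mem_preimage]; tauto
  rw [sz_extra_out hWM] at h3
  linarith

lemma rout_low (hf : Fib f k) (hWM : W ⊆ P' \ Q') (P Q : Set G) (g : G) :
    k * rr (P' \ W) (Q' \ W) (f g) ≤ rr (P \ f ⁻¹' W) (Q \ f ⁻¹' W) g +
      sz (f ⁻¹' P' \ P) + sz (f ⁻¹' Q' \ Q) - sz (f ⁻¹' W \ P) := by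
  have h1 := rr_le_add (f ⁻¹' (P' \ W)) (P \ f ⁻¹' W) (f ⁻¹' (Q' \ W)) (Q \ f ⁻¹' W) g
  rw [hf.rr] at h1
  have h2 : sz (f ⁻¹' (P' \ W) \ (P \ f ⁻¹' W)) ≤ sz ((f ⁻¹' P' \ P) \ f ⁻¹' W) := by
    refine sz_mono fun v => ?_
    simp only [Set.mem_sdiff, Set.mem_preimage]; tauto
  have h3 : sz (f ⁻¹' (Q' \ W) \ (Q \ f ⁻¹' W)) ≤ sz (f ⁻¹' Q' \ Q) := by
    refine sz_mono fun v => ?_
    simp only [Set.mem_sdiff, Set.mem_preimage]; tauto
  rw [sz_hole_out hWM] at h2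
  linarith

/-- local excess of representations -/
noncomputable def EX (f : G →+ D) (A B : Set G) (W : Set D) (g : G) : ℤ :=
  rr (f ⁻¹' W ∩ A) B g - sz (f ⁻¹' W ∩ (A ∩ B))

/-- local loss -/
noncomputable def BE (f : G →+ D) (A B C : Set G) (zb : D) (W : Set D) : ℤ :=
  ∑ g, ind (f ⁻¹' {zb}) g * (ind C g * rr (f ⁻¹' W ∩ (A \ B)) (B \ A) g +
    (1 - ind C g) * rr (f ⁻¹' W \ (A ∪ B)) (A ∩ B) g) +
  ∑ y, ind W y * Dl f (A ∪ B) (A ∩ B) zb y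

lemma rr_upper (hf : Fib f k) (hQP : Q' ⊆ P') (A B : Set G) (g : G) :
    rr A B g ≤ k * rr P' Q' (f g) + sz ((A ∪ B) \ f ⁻¹' P') + sz ((A ∩ B) \ f ⁻¹' Q') +
      EX f A B (Wz P' Q' (f g)) g := by
  have hW := sym_Wz P' Q' (f g)
  set W := Wz P' Q' (f g) with hWd
  have hWM : W ⊆ P' \ Q' := fun y hy => hy.1
  rw [rr_split (f ⁻¹' W) A, ← rr_sym_out hW, EX]
  have h1 : rr (A \ f ⁻¹' W) (B \ f ⁻¹' W) g + rr (B \ f ⁻¹' W) (A \ f ⁻¹' W) g ≤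
      rr (f ⁻¹' P') (f ⁻¹' Q') g + rr (f ⁻¹' Q') (f ⁻¹' P') g + sz ((A ∪ B) \ f ⁻¹' P') +
        sz (((A ∩ B) \ f ⁻¹' Q') \ f ⁻¹' W) + ∑ v, ind ((A ∪ B) \ f ⁻¹' P') (-g - v) +
        ∑ v, ind (((A ∩ B) \ f ⁻¹' Q') \ f ⁻¹' W) (-g - v) := by
    simp only [rr, sz, ← Finset.sum_add_distrib, ind_diff, ind_inter, ind_union, ind_sym hW]
    refine Finset.sum_le_sum fun v _ => ?_
    refine sym_pt _ _ _ _ _ _ _ _ (ind_cases _ _) (ind_cases _ _) (ind_cases _ _) (ind_cases _ _)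
      (ind_cases _ _) (ind_cases _ _) (ind_cases _ _) (ind_cases _ _)
      (ind_mono (Set.preimage_mono hQP) _) (ind_mono (Set.preimage_mono hQP) _) _ ?_
    rw [← ind_diff, ← ind_diff, ind_congr (X := f ⁻¹' P' \ f ⁻¹' Q') (x := -g - v)
      (Y := {v | -g - v ∈ f ⁻¹' P' \ f ⁻¹' Q'}) (y := v) Iff.rfl, ← ind_inter]
    refine ind_congr ?_
    simp [hWd, Wz]
  rw [sum_ind_refl, sum_ind_refl, rr_comm (B \ f ⁻¹' W), rr_comm (f ⁻¹' Q'), hf.rr,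
    sz_extra_out hWM] at h1
  linarith

lemma rr_fibres (f : G →+ D) (W : Set D) (X Y : Set G) (g : G) :
    rr (f ⁻¹' W ∩ X) Y g = ∑ y, ind W y * rr (f ⁻¹' {y} ∩ X) Y g := by
  simp only [rr, ind_inter, mul_assoc]
  rw [fsum f (ind W)]
  rfl

lemma sz_fibres (f : G →+ D) (W : Set D) (X : Set G) :
    sz (f ⁻¹' W ∩ X) = ∑ y, ind W y * fc f X y := by
  rw [← fsum_fc]
  simp only [sz, ind_inter]
  rfl

lemma EX_add (f : G →+ D) (A B : Set G) (W : Set D) (g : G) :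
    EX f A B W g = ∑ y, ind W y * EX f A B {y} g := by
  simp only [EX, mul_sub, Finset.sum_sub_distrib]
  rw [rr_fibres, sz_fibres]
  rfl

lemma BE_add (f : G →+ D) (A B C : Set G) (zb : D) (W : Set D) :
    BE f A B C zb W = ∑ y, ind W y * BE f A B C zb {y} := by
  simp only [BE, sum_ind_single, mul_add (ind W _), Finset.sum_add_distrib]
  congr 1
  simp only [Finset.mul_sum]
  rw [Finset.sum_comm]
  refine Finset.sum_congr rfl fun g _ => ?_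
  simp only [Set.sdiff_eq (f ⁻¹' _)]
  rw [rr_fibres, rr_fibres]
  simp only [Finset.mul_sum, ← Finset.sum_add_distrib]
  exact Finset.sum_congr rfl fun y _ => by ring

lemma BE_le_Om (A B C : Set G) (t : ℤ) (zb : D) (hW : W ⊆ Wz P' Q' zb) :
    BE f A B C zb W + ∑ g, ind (f ⁻¹' {zb} \ C) g *
      (t - rr (A ∪ B) (A ∩ B) g - rr (f ⁻¹' W \ (A ∪ B)) (A ∩ B) g) ≤
      Om f P' Q' A B C t zb := by
  unfold BE Om
  have h1 : ∑ y, ind W y * Dl f (A ∪ B) (A ∩ B) zb y ≤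
      ∑ y, ind (Wz P' Q' zb) y * Dl f (A ∪ B) (A ∩ B) zb y :=
    Finset.sum_le_sum fun y _ => mul_le_mul_of_nonneg_right (ind_mono hW y) (Dl_nonneg _ _ _ _ _)
  have h2 : ∑ g, ind (f ⁻¹' {zb}) g * (ind C g * rr (f ⁻¹' W ∩ (A \ B)) (B \ A) g +
      (1 - ind C g) * rr (f ⁻¹' W \ (A ∪ B)) (A ∩ B) g) + ∑ g, ind (f ⁻¹' {zb} \ C) g *
      (t - rr (A ∪ B) (A ∩ B) g - rr (f ⁻¹' W \ (A ∪ B)) (A ∩ B) g) ≤
      ∑ g, ind (f ⁻¹' {zb}) g * (ind C g * rr (A \ B) (B \ A) g +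
        (1 - ind C g) * (t - rr (A ∪ B) (A ∩ B) g)) := by
    rw [← Finset.sum_add_distrib]
    refine Finset.sum_le_sum fun g _ => ?_
    have := rr_mono (Set.inter_subset_right (s := f ⁻¹' W) (t := A \ B)) (subset_refl (B \ A)) g
    rw [ind_diff]
    rcases ind_cases (f ⁻¹' {zb}) g with h | h <;> rcases ind_cases C g with h' | h' <;>
      rw [h, h'] <;> linarith
  linarith

lemma sum_EH (f : G →+ D) (P Q : Set G) (zb : D) (W : Set D) :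
    ∑ g, ind (f ⁻¹' {zb}) g * rr (f ⁻¹' W \ P) Q g =
      ∑ y, ind W y * (fc f Pᶜ y * fc f Q (-zb - y)) := by
  change TT (f ⁻¹' W \ P) Q (f ⁻¹' {zb}) = _
  rw [TT_swap13, TT_swap12]
  have h1 := fsum_fc f (fun y => ind W y * fc f Q (-zb - y)) Pᶜ
  rw [show (∑ y, ind W y * (fc f Pᶜ y * fc f Q (-zb - y))) =
    ∑ y, ind W y * fc f Q (-zb - y) * fc f Pᶜ y from Finset.sum_congr rfl fun y _ => by ring,
    ← h1]
  unfold TT
  refine Finset.sum_congr rfl fun v _ => ?_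
  have : rr Q (f ⁻¹' {zb}) v = fc f Q (-zb - f v) := by
    simp only [rr, fc, sz, ind_inter]
    refine Finset.sum_congr rfl fun e _ => ?_
    rw [mul_comm]
    congr 1
    refine ind_congr ?_
    simp only [Set.mem_preimage, map_sub, map_neg, Set.mem_singleton_iff]
    constructor
    · intro h; rw [← h]; abel
    · intro h; rw [h]; abel
  rw [this, ind_diff, ind_compl, ind_preimage]; ring

lemma BE_pair (f : G →+ D) (A B C : Set G) (zb x : D) :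
    BE f A B C zb {x, -zb - x} =
      TT (f ⁻¹' {x, -zb - x} ∩ A) B (f ⁻¹' {zb} ∩ C) -
        sz (f ⁻¹' {x, -zb - x} ∩ (A ∩ B)) * sz (f ⁻¹' {zb} ∩ C) +
        sz (f ⁻¹' {x, -zb - x} \ (A ∪ B)) * sz (f ⁻¹' {x, -zb - x} ∩ (A ∩ B)) := by
  have h1 := sum_EH f (A ∪ B) (A ∩ B) zb {x, -zb - x}
  have h2 : ∑ g, ind (f ⁻¹' {zb}) g * (ind C g * rr (f ⁻¹' {x, -zb - x} ∩ (A \ B)) (B \ A) g +
      (1 - ind C g) * rr (f ⁻¹' {x, -zb - x} \ (A ∪ B)) (A ∩ B) g) =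
      TT (f ⁻¹' {x, -zb - x} ∩ A) B (f ⁻¹' {zb} ∩ C) -
        sz (f ⁻¹' {x, -zb - x} ∩ (A ∩ B)) * (∑ g, ind (f ⁻¹' {zb} ∩ C) g) +
        ∑ g, ind (f ⁻¹' {zb}) g * rr (f ⁻¹' {x, -zb - x} \ (A ∪ B)) (A ∩ B) g := by
    simp only [TT, Finset.mul_sum, ← Finset.sum_sub_distrib, ← Finset.sum_add_distrib, ind_inter]
    refine Finset.sum_congr rfl fun g _ => ?_
    by_cases hg : f g = zb
    · rw [rr_local (W := {x, -zb - x}) (by rw [hg]; exact sym_pair x zb) A B]; ring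
    · rw [ind_of_not (X := f ⁻¹' {zb}) hg]; ring
  have h3 : ∑ y, ind ({x, -zb - x} : Set D) y * (fc f (A ∪ B)ᶜ y * fc f (A ∩ B) (-zb - y)) +
      ∑ y, ind ({x, -zb - x} : Set D) y * Dl f (A ∪ B) (A ∩ B) zb y =
      sz (f ⁻¹' {x, -zb - x} \ (A ∪ B)) * sz (f ⁻¹' {x, -zb - x} ∩ (A ∩ B)) := by
    rw [Set.sdiff_eq, sz_fibres, sz_fibres]
    by_cases he : x = -zb - x
    · rw [← he]
      simp only [Set.pair_eq_singleton, sum_ind_single, Dl]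
      rw [← he, ind_of_mem (Set.mem_singleton x)]; ring
    · have e : -zb - (-zb - x) = x := by abel
      simp only [sum_ind_pair he, Dl, e]
      rw [ind_of_not (X := {x}) (fun h => he (Eq.symm h)), ind_of_not (X := {-zb - x}) he]; ring
  unfold BE
  rw [h2, h1]
  unfold sz at h3 ⊢
  linarith

end

end Pool.Agent.Lib.MP_cd64ef_nt
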