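import Pool.Agent.Lib.MP_cd64ef_nt.Core

set_option autoImplicit false

namespace Pool.Agent.Lib.MP_cd64ef_nt

open Finset

universe u

section
variable {G D : Type u} [AddCommGroup G] [Fintype G] [AddCommGroup D] [Fintype D]
  {f : G →+ D} {k : ℤ} {P' Q' C' : Set D} {s : ℤ} {A B C : Set G} {t : ℤ}

lemma BE_nonneg (f : G →+ D) (A B C : Set G) (zb : D) (W : Set D) : 0 ≤ BE f A B C zb W := by
  refine add_nonneg (Finset.sum_nonneg fun g _ => mul_nonneg (ind_nonneg _ _) (add_nonneg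
    (mul_nonneg (ind_nonneg _ _) (rr_nonneg _ _ _)) (mul_nonneg ?_ (rr_nonneg _ _ _))))
    (Finset.sum_nonneg fun y _ => mul_nonneg (ind_nonneg _ _) (Dl_nonneg _ _ _ _ _))
  have := ind_le_one C g
  omega

lemma core_periodic (ih : IH.{u} (Fintype.card G))
    (hn : Near f k P' Q' C' s (A ∪ B) (A ∩ B) C t) (hC : ∀ g, g ∈ C ↔ rr A B g < t)
    (hq : t ≤ sz (A ∩ B)) (hpos : 0 < Phi A B C t) :
    ∃ H : AddSubgroup G, 2 ≤ sz (H : Set G) ∧ Per H C := by
  classical
  have hf := hn.fib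
  have hk := hf.pos
  have hlo := hn.lo
  have hhi := hn.hi
  have n1 := sz_nonneg ((A ∪ B) \ f ⁻¹' P')
  have n2 := sz_nonneg ((A ∩ B) \ f ⁻¹' Q')
  have n3 := sz_nonneg (C \ f ⁻¹' C')
  have n4 := sz_nonneg (f ⁻¹' P' \ (A ∪ B))
  have n5 := sz_nonneg (f ⁻¹' Q' \ (A ∩ B))
  have n6 := sz_nonneg (f ⁻¹' C' \ C)
  have hQP : Q' ⊆ P' := by
    intro y hy
    obtain ⟨v, rfl⟩ := hf.surj y
    by_contra hv
    have a1 := rr_in hf hn.crit.swap23 (A ∪ B) C v hy
    have a2 := rr_out hf hn.crit.swap12.swap23 (A ∩ B) C v hv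
    have a3 := rr_mono (Set.inter_subset_left.trans (Set.subset_union_left (s := A) (t := B)) :
      A ∩ B ⊆ A ∪ B) (subset_refl C) v
    linarith
  have hsub : C ⊆ f ⁻¹' C' := by
    intro g hg
    by_contra hg'
    have a1 := rr_out hf hn.crit (A ∪ B) (A ∩ B) g hg'
    have a2 := (hC g).1 hg
    have a3 := rr_dyson A B g
    have a4 := rr_nonneg (A \ B) (B \ A) g
    linarith
  have hm := master hf hn.crit hQP A B C t hsub
  obtain ⟨z, hz⟩ : ∃ z, z = t - s * k - sz ((A ∪ B) \ f ⁻¹' P') - sz ((A ∩ B) \ f ⁻¹' Q') :=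
    ⟨_, rfl⟩
  obtain ⟨w, hw⟩ : ∃ w, w = (s + 1) * k - t - sz (f ⁻¹' P' \ (A ∪ B)) -
    sz (f ⁻¹' Q' \ (A ∩ B)) := ⟨_, rfl⟩
  rw [← hz, ← hw] at hm
  have hz1 : 1 ≤ z := by omega
  have hOm : ∀ zb ∈ C', BE f A B C zb (Wz P' Q' zb) + z * sz (f ⁻¹' {zb} \ C) ≤
      Om f P' Q' A B C t zb := by
    intro zb hzb
    have a1 := BE_le_Om (f := f) A B C t zb (subset_refl (Wz P' Q' zb))
    have a2 := sum_hole_ge (f ⁻¹' {zb} \ C) (fun g => t - rr (A ∪ B) (A ∩ B) g -
      rr (f ⁻¹' (Wz P' Q' zb) \ (A ∪ B)) (A ∩ B) g) z (by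
        intro g hg
        have hg' : f g = zb := hg.1
        have := hole_ge hf hn.crit (W := Wz P' Q' zb) (g := g) (by rw [hg']; exact hzb)
          (by rw [hg']; exact sym_Wz _ _ _) (fun y hy => hy.1) (A ∪ B) (A ∩ B)
        linarith)
    linarith
  have hOm0 : ∀ zb ∈ C', 0 ≤ Om f P' Q' A B C t zb := by
    intro zb hzb
    have a1 := hOm zb hzb
    have a2 := BE_nonneg f A B C zb (Wz P' Q' zb)
    have a3 := mul_nonneg (show 0 ≤ z by omega) (sz_nonneg (f ⁻¹' {zb} \ C))
    linarith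
  have hsubsum : ∀ X : Set D, X ⊆ C' → Phi A B C t + ∑ zb, ind X zb * Om f P' Q' A B C t zb ≤
      z * w := by
    intro X hX
    refine le_trans (add_le_add_right (Finset.sum_le_sum fun zb _ => ?_) _) hm
    by_cases hzb : zb ∈ C'
    · exact mul_le_mul_of_nonneg_right (ind_mono hX zb) (hOm0 zb hzb)
    · rw [ind_of_not hzb, ind_of_not (fun h => hzb (hX h))]
  have hM : ∀ zb ∈ C', Phi A B C t + Om f P' Q' A B C t zb ≤ z * w := by
    intro zb hzb
    have := hsubsum {zb} (by simpa using hzb)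
    rwa [sum_ind_single] at this
  have hloc : ∀ zb x, ∃ S : Set G, zb ∈ C' → x ∈ Wz P' Q' zb →
      S ⊆ f ⁻¹' {zb} ∧ f ⁻¹' {zb} ∩ C ⊆ S ∧
      (∀ g ∈ S, (w - sz (f ⁻¹' {zb} \ C)) * EX f A B {x, -zb - x} g ≤
        BE f A B C zb {x, -zb - x}) ∧
      ((∃ g ∈ f ⁻¹' {zb}, g ∉ S) → z * (w - sz (f ⁻¹' {zb} \ C)) ≤ Om f P' Q' A B C t zb) ∧
      sz (f ⁻¹' {zb} \ C) + 2 ≤ sz (f ⁻¹' {zb} \ S) + sz (stabS (f ⁻¹' {zb} \ S) : Set G) := by
    intro zb x
    by_cases h : zb ∈ C' ∧ x ∈ Wz P' Q' zb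
    · obtain ⟨S, hS⟩ := local_out ih hn (fun g hg => (hC g).1 hg) hq hpos z w hz hw h.1 h.2
        (hM zb h.1)
      exact ⟨S, fun _ _ => hS⟩
    · exact ⟨∅, fun h1 h2 => absurd ⟨h1, h2⟩ h⟩
  choose S hS using hloc
  have hile : ∀ zb ∈ C', sz (f ⁻¹' {zb} \ C) ≤ sz (f ⁻¹' C' \ C) := by
    intro zb hzb
    refine sz_mono fun g hg => ⟨?_, hg.2⟩
    have : f g = zb := hg.1
    simp only [Set.mem_preimage, this, hzb]
  have hhole : ∀ g, f g ∈ C' → g ∉ C → ∃ x ∈ Wz P' Q' (f g), g ∉ S (f g) x := by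
    intro g hg hgC
    by_contra hcon
    push Not at hcon
    have a1 := double (sym_Wz P' Q' (f g)) (fun y => (w - sz (f ⁻¹' {f g} \ C)) *
      EX f A B {y} g - BE f A B C (f g) {y}) (by
        intro x hx
        have := (hS (f g) x hg hx).2.2.1 g (hcon x hx)
        rw [EX_add, BE_add, Finset.mul_sum, ← sub_nonpos, ← Finset.sum_sub_distrib] at this
        refine le_of_eq_of_le (Finset.sum_congr rfl fun y _ => by ring) this)
    have a2 : (w - sz (f ⁻¹' {f g} \ C)) * EX f A B (Wz P' Q' (f g)) g ≤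
        BE f A B C (f g) (Wz P' Q' (f g)) := by
      rw [EX_add, BE_add, Finset.mul_sum, ← sub_nonpos, ← Finset.sum_sub_distrib]
      refine le_of_eq_of_le (Finset.sum_congr rfl fun y _ => by ring) a1
    have a3 := rr_upper hf hQP A B g
    have a4 : t ≤ rr A B g := not_lt.1 fun h => hgC ((hC g).2 h)
    have a5 := mul_le_mul_of_nonneg_left (hn.crit.inC _ hg) (show 0 ≤ k by omega)
    have a6 := hile _ hg
    have a7 : (w - sz (f ⁻¹' {f g} \ C)) * z ≤
        (w - sz (f ⁻¹' {f g} \ C)) * EX f A B (Wz P' Q' (f g)) g :=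
      mul_le_mul_of_nonneg_left (by linarith) (by linarith)
    have a8 := hOm _ hg
    have a9 := hM _ hg
    linarith
  by_cases hex : ∃ g0, f g0 ∈ C' ∧ g0 ∉ C
  swap
  · refine ⟨f.ker, by rw [hf.ker]; linarith, ?_⟩
    have : C = f ⁻¹' C' := by
      refine Set.Subset.antisymm hsub fun g hg => ?_
      by_contra h
      exact hex ⟨g, hg, h⟩
    intro d hd x
    have hd' : f d = 0 := hd
    rw [this]
    simp [hd']
  obtain ⟨g0, hg0, hg0C⟩ := hex
  have hbig : ∀ g, f g ∈ C' → g ∉ C →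
      z * (w - sz (f ⁻¹' {f g} \ C)) ≤ Om f P' Q' A B C t (f g) := by
    intro g hg hgC
    obtain ⟨x, hx, hgx⟩ := hhole g hg hgC
    exact (hS (f g) x hg hx).2.2.2.1 ⟨g, rfl, hgx⟩
  have hone : ∀ g, f g ∈ C' → g ∉ C → f g = f g0 := by
    intro g hg hgC
    by_contra hne
    have a1 := hsubsum {f g, f g0} (by
      rintro y (rfl | rfl)
      · exact hg
      · exact hg0)
    rw [sum_ind_pair hne] at a1
    have a2 := hbig g hg hgC
    have a3 := hbig g0 hg0 hg0C
    have a4 := sz_union_add_inter (f ⁻¹' {f g} \ C) (f ⁻¹' {f g0} \ C)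
    have a5 : (f ⁻¹' {f g} \ C) ∩ (f ⁻¹' {f g0} \ C) = ∅ := by
      refine Set.eq_empty_of_forall_notMem fun v hv => hne ?_
      have b1 : f v = f g := hv.1.1
      have b2 : f v = f g0 := hv.2.1
      rw [← b1, b2]
    have a6 : sz ((f ⁻¹' {f g} \ C) ∪ (f ⁻¹' {f g0} \ C)) ≤ sz (f ⁻¹' C' \ C) := by
      refine sz_mono ?_
      rintro v (hv | hv)
      · have : f v = f g := hv.1
        exact ⟨by simp only [Set.mem_preimage, this, hg], hv.2⟩
      · have : f v = f g0 := hv.1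
        exact ⟨by simp only [Set.mem_preimage, this, hg0], hv.2⟩
    rw [a5, sz_empty] at a4
    have a7 : z * (sz (f ⁻¹' {f g} \ C) + sz (f ⁻¹' {f g0} \ C)) ≤ z * w :=
      mul_le_mul_of_nonneg_left (by linarith) (by omega)
    linarith
  have hU : (⋃ x ∈ Finset.univ.filter (· ∈ Wz P' Q' (f g0)), f ⁻¹' {f g0} \ S (f g0) x) =
      f ⁻¹' {f g0} \ C := by
    ext g
    simp only [Finset.mem_filter, Finset.mem_univ, true_and, Set.mem_iUnion, exists_prop]
    constructor
    · rintro ⟨x, hx, h1, h2⟩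
      exact ⟨h1, fun h => h2 ((hS (f g0) x hg0 hx).2.1 ⟨h1, h⟩)⟩
    · rintro ⟨h1, h2⟩
      have e : f g = f g0 := h1
      obtain ⟨x, hx, hgx⟩ := hhole g (by rw [e]; exact hg0) h2
      rw [e] at hx hgx
      exact ⟨x, hx, h1, hgx⟩
  have hol := olson_family (Finset.univ.filter (· ∈ Wz P' Q' (f g0)))
    (fun x => f ⁻¹' {f g0} \ S (f g0) x) (sz (f ⁻¹' {f g0} \ C) + 2)
    (fun x hx => Or.inr (hS (f g0) x hg0 (by simpa using hx)).2.2.2.2)
  rw [hU] at hol
  have hmem : g0 ∈ f ⁻¹' {f g0} \ C := ⟨rfl, hg0C⟩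
  rcases hol with hol | hol
  · rw [hol] at hmem; exact absurd hmem (fun h => h)
  refine ⟨stabS (f ⁻¹' {f g0} \ C), by linarith, ?_⟩
  intro d hd x
  have hd0 : f d = 0 := by
    have : f (g0 + d) = f g0 := ((hd g0).2 hmem).1
    simpa using this
  have hchar : ∀ v, v ∈ C ↔ f v ∈ C' ∧ v ∉ f ⁻¹' {f g0} \ C := by
    intro v
    constructor
    · intro hv; exact ⟨hsub hv, fun h => h.2 hv⟩
    · rintro ⟨h1, h2⟩
      by_contra h3
      exact h2 ⟨hone v h1 h3, h3⟩
  rw [hchar, hchar x, hd x, map_add, hd0, add_zero]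

end

section
variable {G : Type u} [AddCommGroup G] [Fintype G]

lemma core (ih : IH.{u} (Fintype.card G)) (A B C : Set G) (t : ℤ)
    (hb : InBasin (A ∪ B) (A ∩ B) C t) (hq : t ≤ sz (A ∩ B)) (hpos : 0 < Phi A B C t) :
    InBasin A B C t := by
  have p1 : 0 < Phi A B {g | rr A B g < t} t := hpos.trans_le (Phi_le_thr A B C t)
  have p2 : 0 < Phi (A ∪ B) (A ∩ B) {g | rr A B g < t} t := by
    have := Phi_dyson A B {g | rr A B g < t} t
    have := TT_nonneg (A \ B) (B \ A) {g | rr A B g < t}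
    linarith
  obtain ⟨D, i1, i2, f, k, P', Q', C', s, hn⟩ := hb.change3 _ p2
  obtain ⟨H, h1, h2⟩ := core_periodic ih hn (fun g => Iff.rfl) hq p1
  exact (periodize3 ih A B _ t H h1 h2 p1).change3 C hpos

lemma thmB_step (ih : IH.{u} (Fintype.card G)) : ThmB G := by
  have main : ∀ n : ℕ, ∀ (A B C : Set G) (t : ℤ), sz B ≤ n → 0 < Phi A B C t →
      InBasin A B C t := by
    intro n
    induction n with
    | zero =>
      intro A B C t hB hpos
      refine inBasin_degenerate ?_ hpos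
      simp only [Nat.cast_zero] at hB
      omega
    | succ n ihn =>
      have dyson : ∀ (A B C : Set G) (t : ℤ), sz B ≤ (n + 1 : ℕ) → (∃ b ∈ B, b ∉ A) →
          t ≤ sz (A ∩ B) → 0 < Phi A B C t → InBasin A B C t := by
        rintro A B C t hB ⟨b, hb, hbA⟩ hq hpos
        refine core ih A B C t (ihn _ _ _ _ ?_ ?_) hq hpos
        · have := sz_lt_of_ssubset (Set.inter_subset_right (s := A) (t := B)) hb
            (fun h => hbA h.1)
          push_cast at hB
          omega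
        · have := Phi_dyson A B C t
          have := TT_nonneg (A \ B) (B \ A) C
          linarith
      have dyson2 : ∀ (A B C : Set G) (t : ℤ), sz B ≤ (n + 1 : ℕ) → (∃ b ∈ B, b ∉ A) →
          (∃ b ∈ B, b ∈ A) → 0 < Phi A B C t → InBasin A B C t := by
        rintro A B C t hB h1 ⟨b, hb, hbA⟩ hpos
        by_cases hq : t ≤ sz (A ∩ B)
        · exact dyson A B C t hB h1 hq hpos
        · refine (dyson Aᶜ B Cᶜ (sz B - t) hB ⟨b, hb, fun h => h hbA⟩ ?_
            (by rwa [Phi_dual])).undual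
          have := sz_inter_add_diff B A
          rw [Set.inter_comm] at this
          have e : Aᶜ ∩ B = B \ A := by ext v; simp [and_comm]
          rw [e]
          omega
      intro A B C t hB hpos
      by_cases hd : t ≤ 0 ∨ sz B ≤ t
      · exact inBasin_degenerate hd hpos
      push Not at hd
      by_cases he : ∃ e, (∃ b, b + e ∈ B ∧ b ∉ A) ∧ ∃ b, b + e ∈ B ∧ b ∈ A
      · obtain ⟨e, h1, h2⟩ := he
        refine InBasin.unshift e (dyson2 A _ _ t (by rwa [sz_shift]) h1 h2 (by rwa [Phi_shift]))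
      · have hper : ∀ b ∈ B, ∀ b' ∈ B, ∀ a ∈ A, a + (b' - b) ∈ A := by
          intro b hb b' hb' a ha
          by_contra hcon
          refine he ⟨b - a, ⟨a + (b' - b), ?_, hcon⟩, a, by simpa using hb, ha⟩
          have : a + (b' - b) + (b - a) = b' := by abel
          rwa [this]
        obtain ⟨b, hb⟩ : B.Nonempty := by
          rw [Set.nonempty_iff_ne_empty]
          rintro rfl
          rw [sz_empty] at hd
          omega
        obtain ⟨b', hb', hne⟩ : ∃ b' ∈ B, b' ≠ b := by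
          by_contra hcon
          push Not at hcon
          have := sz_mono (X := B) (Y := {b}) hcon
          rw [sz_single] at this
          omega
        have hst : b' - b ∈ stabS A := by
          intro x
          constructor
          · intro hx
            have := hper b' hb' b hb _ hx
            have e : x + (b' - b) + (b - b') = x := by abel
            rwa [e] at this
          · exact hper b hb b' hb' x
        have h2 : 2 ≤ sz (stabS A : Set G) := by
          have := sz_lt_of_ssubset (X := {0}) (Y := (stabS A : Set G))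
            (by simp) hst (by simpa [sub_eq_zero] using hne)
          rw [sz_single] at this
          omega
        exact (periodize3 ih C B A t _ h2 (per_stabS A) (by rwa [Phi_swap13])).swap13
  intro A B C t hpos
  exact main (sz B).toNat A B C t (by omega) hpos

end

theorem thmB (G : Type u) [AddCommGroup G] [Fintype G] : ThmB G := by
  have : ∀ n, IH.{u} n := by
    intro n
    induction n with
    | zero => intro L _ _ h; omega
    | succ n ihn =>
      intro L _ _ h
      exact thmB_step fun M _ _ hM => ihn M (by omega)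
  exact thmB_step (this _)

end Pool.Agent.Lib.MP_cd64ef_nt
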