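import Pool.Agent.Lib.MP_cd64ef_nt.Period

set_option autoImplicit false

namespace Pool.Agent.Lib.MP_cd64ef_nt

open Finset

universe u

/-- the group of periods of Y -/
def stabS {G : Type*} [AddCommGroup G] (Y : Set G) : AddSubgroup G where
  carrier := {d | ∀ x, x + d ∈ Y ↔ x ∈ Y}
  zero_mem' := by intro x; simp
  add_mem' := by
    intro a b ha hb x
    rw [← add_assoc, hb, ha]
  neg_mem' := by
    intro a ha x
    rw [← ha]; simp

section
variable {G : Type*} [AddCommGroup G]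

lemma mem_stabS {Y : Set G} {d : G} : d ∈ stabS Y ↔ ∀ x, x + d ∈ Y ↔ x ∈ Y := Iff.rfl

lemma per_stabS (Y : Set G) : Per (stabS Y) Y := fun _ hh => hh

lemma Per.le {H : AddSubgroup G} {Y : Set G} (h : Per H Y) : H ≤ stabS Y := fun d hd => h d hd

lemma Per.compl {H : AddSubgroup G} {Y : Set G} (h : Per H Y) : Per H Yᶜ :=
  fun d hd x => not_congr (h d hd x)

variable [Fintype G]

lemma Per.sz_le {H : AddSubgroup G} {Y : Set G} (h : Per H Y) {x : G} (hx : x ∈ Y) :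
    sz (H : Set G) ≤ sz Y := by
  rw [← sz_shift Y x]
  refine sz_mono fun v hv => ?_
  simp only [Set.mem_ofPred_eq]
  rw [add_comm]
  exact (h v hv x).2 hx

lemma olson_count (H1 H2 : AddSubgroup G) (X1 X2 : Set G) (h1 : Per H1 X1) (h2 : Per H2 X2)
    (x : G) :
    sz {h | h ∈ H2 ∧ x + h ∈ X1} * sz {h | h ∈ H1 ∧ x + h ∈ X2} ≤
      sz ((H1 ⊓ H2 : AddSubgroup G) : Set G) * sz (X1 ∩ X2) := by
  have e1 : sz {h | h ∈ H2 ∧ x + h ∈ X1} * sz {h | h ∈ H1 ∧ x + h ∈ X2} =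
      ∑ a, ∑ g, ind (X1 ∩ X2) g * ind {a | a ∈ H1 ∧ g - x - a ∈ H2} a := by
    unfold sz
    rw [mul_comm, Finset.sum_mul_sum]
    refine Finset.sum_congr rfl fun a _ => ?_
    rw [← sum_shift (x + a) (fun g => ind (X1 ∩ X2) g * ind {a | a ∈ H1 ∧ g - x - a ∈ H2} a)]
    refine Finset.sum_congr rfl fun b _ => ?_
    have hb : b + (x + a) - x - a = b := by abel
    by_cases ha : a ∈ H1
    · by_cases hb2 : b ∈ H2
      · have q1 : b + (x + a) ∈ X1 ↔ x + b ∈ X1 := by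
          rw [← h1 a ha (x + b)]
          have : x + b + a = b + (x + a) := by abel
          rw [this]
        have q2 : b + (x + a) ∈ X2 ↔ x + a ∈ X2 := by
          rw [← h2 b hb2 (x + a), add_comm]
        rw [ind_of_mem (X := {a_1 | a_1 ∈ H1 ∧ b + (x + a) - x - a_1 ∈ H2}) (x := a)
          ⟨ha, by rw [hb]; exact hb2⟩, ind_inter, mul_one, mul_comm]
        congr 1
        · exact ind_congr (by simp [hb2, q1])
        · exact ind_congr (by simp [ha, q2])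
      · rw [ind_of_not (X := {a_1 | a_1 ∈ H1 ∧ b + (x + a) - x - a_1 ∈ H2}) (x := a)
          (fun h => hb2 (by have := h.2; rwa [hb] at this)),
          ind_of_not (X := {h | h ∈ H2 ∧ x + h ∈ X1}) (x := b) (fun h => hb2 h.1)]
        simp
    · rw [ind_of_not (X := {a_1 | a_1 ∈ H1 ∧ b + (x + a) - x - a_1 ∈ H2}) (x := a)
          (fun h => ha h.1),
          ind_of_not (X := {h | h ∈ H1 ∧ x + h ∈ X2}) (x := a) (fun h => ha h.1)]
      simp
  rw [e1, Finset.sum_comm]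
  simp only [← Finset.mul_sum]
  conv_rhs => rw [mul_comm]; unfold sz; rw [Finset.sum_mul]
  refine Finset.sum_le_sum fun g _ => mul_le_mul_of_nonneg_left ?_ (ind_nonneg _ _)
  change sz {a | a ∈ H1 ∧ g - x - a ∈ H2} ≤ sz ((H1 ⊓ H2 : AddSubgroup G) : Set G)
  by_cases hne : ∃ a0, a0 ∈ H1 ∧ g - x - a0 ∈ H2
  · obtain ⟨a0, p1, p2⟩ := hne
    rw [← sz_shift {a | a ∈ H1 ∧ g - x - a ∈ H2} a0]
    refine sz_mono fun v hv => ?_
    obtain ⟨v1, v2⟩ := hv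
    refine ⟨?_, ?_⟩
    · simpa using H1.sub_mem v1 p1
    · have := H2.sub_mem p2 v2
      have e : g - x - a0 - (g - x - (v + a0)) = v := by abel
      rwa [e] at this
  · have : {a | a ∈ H1 ∧ g - x - a ∈ H2} = ∅ := by
      ext a; simpa using fun h h' => hne ⟨a, h, h'⟩
    rw [this, sz_empty]; exact sz_nonneg _

omit [Fintype G] in
lemma olson_slice (H1 H2 : AddSubgroup G) (X : Set G) (h1 : Per H1 X) (x : G) :
    Per (H1 ⊓ H2) {h | h ∈ H2 ∧ x + h ∈ X} := by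
  intro d hd v
  simp only [Set.mem_ofPred_eq]
  rw [← add_assoc, h1 d hd.1, H2.add_mem_cancel_right hd.2]

lemma olson_split (H : AddSubgroup G) (X : Set G) (x : G) :
    sz {h | h ∈ H ∧ x + h ∈ X} + sz {h | h ∈ H ∧ x + h ∈ Xᶜ} = sz (H : Set G) := by
  rw [← sz_inter_add_diff (H : Set G) {h | x + h ∈ X}]
  rfl

lemma olson_arith (h n1 n2 a b α β : ℤ) (hh : 1 ≤ h) (ha : 0 ≤ a) (hb : 0 ≤ b) (h1 : h ≤ α)
    (h2 : h ≤ β) (h3 : h ≤ n1 - β) (h4 : h ≤ n2 - α) (e1 : α * (n1 - β) ≤ h * a)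
    (e2 : β * (n2 - α) ≤ h * b) (a1 : a < n1 - h) (a2 : b < n2 - h) : False := by
  have p1 : h * (n2 - h) ≤ α * (n2 - α) := by nlinarith
  have p2 : h * (n1 - h) ≤ β * (n1 - β) := by nlinarith
  have p3 : (α * (n1 - β)) * (β * (n2 - α)) ≤ (h * a) * (h * b) :=
    mul_le_mul e1 e2 (mul_nonneg (by omega) (by omega)) (mul_nonneg (by omega) ha)
  have p4 : (h * (n2 - h)) * (h * (n1 - h)) ≤ (α * (n2 - α)) * (β * (n1 - β)) :=
    mul_le_mul p1 p2 (mul_nonneg (by omega) (by omega)) (mul_nonneg (by omega) (by omega))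
  have p5 : a * b < (n1 - h) * (n2 - h) := mul_lt_mul'' a1 a2 ha hb
  have p6 : h * h * (a * b) < h * h * ((n1 - h) * (n2 - h)) :=
    mul_lt_mul_of_pos_left p5 (mul_pos (by omega) (by omega))
  nlinarith

lemma olson_half (H1 H2 : AddSubgroup G) (Y1 Y2 : Set G) (h1 : Per H1 Y1) (h2 : Per H2 Y2)
    (hn : ¬ Per H1 (Y1 ∪ Y2))
    (a1 : sz (Y2 \ Y1) < sz (H1 : Set G) - sz ((H1 ⊓ H2 : AddSubgroup G) : Set G))
    (a2 : sz (Y1 \ Y2) < sz (H2 : Set G) - sz ((H1 ⊓ H2 : AddSubgroup G) : Set G)) :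
    sz (H2 : Set G) ≤ sz (Y2 \ Y1) := by
  obtain ⟨x, d, hd, hx, hxd⟩ : ∃ x d, d ∈ H1 ∧ x ∉ Y1 ∪ Y2 ∧ x + d ∈ Y1 ∪ Y2 := by
    by_contra hc
    push Not at hc
    apply hn
    intro d hd x
    constructor
    · intro hx; by_contra hx'; exact hc x d hd hx' hx
    · intro hx; by_contra hx'
      exact hc (x + d) (-d) (H1.neg_mem hd) hx' (by simpa using hx)
  have hx1 : x ∉ Y1 := fun h => hx (Or.inl h)
  have hx2 : x ∉ Y2 := fun h => hx (Or.inr h)
  have hxd2 : x + d ∈ Y2 := hxd.resolve_left (fun h => hx1 ((h1 d hd x).1 h))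
  have c1 := olson_count H1 H2 Y1ᶜ Y2 h1.compl h2 x
  have c2 := olson_count H1 H2 Y1 Y2ᶜ h1 h2.compl x
  have s1 := olson_split H1 Y2 x
  have s2 := olson_split H2 Y1 x
  have l1 := (olson_slice H1 H2 Y1ᶜ h1.compl x).sz_le (x := 0) ⟨H2.zero_mem, by simpa using hx1⟩
  have l2 := (olson_slice H2 H1 Y2ᶜ h2.compl x).sz_le (x := 0) ⟨H1.zero_mem, by simpa using hx2⟩
  have l3 := (olson_slice H2 H1 Y2 h2 x).sz_le (x := d) ⟨hd, hxd2⟩
  rw [inf_comm] at l2 l3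
  have e1 : Y1ᶜ ∩ Y2 = Y2 \ Y1 := by ext v; simp [and_comm]
  have e2 : Y1 ∩ Y2ᶜ = Y1 \ Y2 := rfl
  rw [e1] at c1
  rw [e2] at c2
  have hh : 1 ≤ sz ((H1 ⊓ H2 : AddSubgroup G) : Set G) := one_le_sz (H1 ⊓ H2).zero_mem
  by_cases hne : ∃ v, v ∈ H2 ∧ x + v ∈ Y1
  · exfalso
    obtain ⟨v, hv⟩ := hne
    have l4 := (olson_slice H1 H2 Y1 h1 x).sz_le (x := v) hv
    refine olson_arith _ (sz (H1 : Set G)) (sz (H2 : Set G)) _ _ _ _ hh (sz_nonneg _)
      (sz_nonneg _) l1 l2 (by omega) (by omega) ?_ ?_ a1 a2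
    · rw [← s1]; simpa using c1
    · rw [← s2, mul_comm]; simpa using c2
  · have e3 : {h | h ∈ H2 ∧ x + h ∈ Y1} = ∅ := by
      ext a; simpa using fun h h' => hne ⟨a, h, h'⟩
    rw [e3, sz_empty, zero_add] at s2
    rw [s2] at c1
    have := mul_le_mul_of_nonneg_left l3 (sz_nonneg (H2 : Set G))
    have h5 : sz ((H1 ⊓ H2 : AddSubgroup G) : Set G) * sz (H2 : Set G) ≤
        sz ((H1 ⊓ H2 : AddSubgroup G) : Set G) * sz (Y2 \ Y1) := by linarith
    exact le_of_mul_le_mul_left h5 (by omega)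

lemma olson_two (H1 H2 : AddSubgroup G) (Y1 Y2 : Set G) (h1 : Per H1 Y1) (h2 : Per H2 Y2) :
    sz Y1 + sz (H1 : Set G) ≤ sz (Y1 ∪ Y2) + sz (stabS (Y1 ∪ Y2) : Set G) ∨
      sz Y2 + sz (H2 : Set G) ≤ sz (Y1 ∪ Y2) + sz (stabS (Y1 ∪ Y2) : Set G) := by
  by_contra hc
  push Not at hc
  obtain ⟨c1, c2⟩ := hc
  have u1 := sz_union_add_inter Y1 Y2
  have u2 := sz_inter_add_diff Y1 Y2
  have u3 := sz_inter_add_diff Y2 Y1
  rw [Set.inter_comm] at u3
  have hK : sz ((H1 ⊓ H2 : AddSubgroup G) : Set G) ≤ sz (stabS (Y1 ∪ Y2) : Set G) := by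
    refine sz_mono fun d hd x => ?_
    simp only [Set.mem_union]
    rw [h1 d hd.1, h2 d hd.2]
  have n1 := sz_nonneg (Y1 \ Y2)
  have n2 := sz_nonneg (Y2 \ Y1)
  have hh := sz_nonneg ((H1 ⊓ H2 : AddSubgroup G) : Set G)
  have p1 : ¬ Per H1 (Y1 ∪ Y2) := fun h => by
    have : sz (H1 : Set G) ≤ sz (stabS (Y1 ∪ Y2) : Set G) := sz_mono h.le
    omega
  have p2 : ¬ Per H2 (Y2 ∪ Y1) := fun h => by
    rw [Set.union_comm] at h
    have : sz (H2 : Set G) ≤ sz (stabS (Y1 ∪ Y2) : Set G) := sz_mono h.le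
    omega
  have r1 := olson_half H1 H2 Y1 Y2 h1 h2 p1 (by omega) (by omega)
  have r2 := olson_half H2 H1 Y2 Y1 h2 h1 p2 (by rw [inf_comm]; omega) (by rw [inf_comm]; omega)
  omega

lemma olson_family {ι : Type*} (I : Finset ι) (Y : ι → Set G) (m : ℤ)
    (h : ∀ i ∈ I, Y i = ∅ ∨ m ≤ sz (Y i) + sz (stabS (Y i) : Set G)) :
    (⋃ i ∈ I, Y i) = ∅ ∨ m ≤ sz (⋃ i ∈ I, Y i) + sz (stabS (⋃ i ∈ I, Y i) : Set G) := by
  classical
  induction I using Finset.induction_on with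
  | empty => left; simp
  | insert a I ha ih =>
    rw [Finset.set_biUnion_insert]
    have h1 := h a (Finset.mem_insert_self _ _)
    have h2 := ih fun i hi => h i (Finset.mem_insert_of_mem hi)
    rcases h1 with h1 | h1
    · rw [h1, Set.empty_union]; exact h2
    rcases h2 with h2 | h2
    · rw [h2, Set.union_empty]; exact Or.inr h1
    right
    rcases olson_two _ _ _ _ (per_stabS (Y a)) (per_stabS (⋃ i ∈ I, Y i)) with h3 | h3 <;> omega

end

end Pool.Agent.Lib.MP_cd64ef_nt
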