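import Pool.Agent.Lib.MP_cd64ef_nt.Basin

set_option autoImplicit false

namespace Pool.Agent.Lib.MP_cd64ef_nt

open Finset

universe u

/-- the basin statement for one finite group -/
def ThmB (G : Type u) [AddCommGroup G] [Fintype G] : Prop :=
  ∀ (A B C : Set G) (t : ℤ), 0 < Phi A B C t → InBasin A B C t

/-- X is a union of cosets of H -/
def Per {G : Type*} [AddCommGroup G] (H : AddSubgroup G) (X : Set G) : Prop :=
  ∀ h ∈ H, ∀ x, x + h ∈ X ↔ x ∈ X

lemma fib_of_surj {G D : Type*} [AddCommGroup G] [Fintype G] [AddCommGroup D] [Fintype D]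
    (f : G →+ D) (hs : Function.Surjective f) : Fib f (sz (f.ker : Set G)) := by
  intro F
  have h1 := fsum f F (fun _ => 1)
  simp only [mul_one] at h1
  rw [← h1, Finset.mul_sum]
  refine Finset.sum_congr rfl fun y _ => ?_
  obtain ⟨x, rfl⟩ := hs y
  rw [mul_comm]
  congr 1
  have := sz_shift (f ⁻¹' {f x}) x
  unfold sz at this ⊢
  rw [← this]
  refine Finset.sum_congr rfl fun v _ => ind_congr ?_
  simp

lemma Fib.ker {G D : Type*} [AddCommGroup G] [Fintype G] [AddCommGroup D] [Fintype D]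
    {f : G →+ D} {k : ℤ} (h : Fib f k) : Pool.Agent.Lib.MP_cd64ef_nt.sz (f.ker : Set G) = k := by
  rw [← h.fibre 0]
  congr 1

lemma Per.eq_preimage {G : Type*} [AddCommGroup G] {H : AddSubgroup G} {X : Set G}
    (h : Per H X) :
    (QuotientAddGroup.mk' H) ⁻¹' ((QuotientAddGroup.mk' H) '' X) = X := by
  ext x
  constructor
  · rintro ⟨y, hy, hxy⟩
    obtain ⟨z, hz, rfl⟩ := (QuotientAddGroup.mk'_eq_mk' H).1 hxy
    exact (h z hz y).2 hy
  · intro hx
    exact ⟨x, hx, rfl⟩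

lemma Per.thr {G : Type*} [AddCommGroup G] [Fintype G] {H : AddSubgroup G} {Y : Set G}
    (h : Per H Y) (X : Set G) (t : ℤ) : Per H {g | rr X Y g < t} := by
  intro e he x
  simp only [Set.mem_ofPred_eq]
  have : rr X Y (x + e) = rr X Y x := by
    unfold rr
    refine Finset.sum_congr rfl fun v _ => ?_
    congr 1
    refine ind_congr ?_
    rw [← h e he]
    have : -(x + e) - v + e = -x - v := by abel
    rw [this]
  rw [this]

section Lift
variable {G E : Type u} [AddCommGroup G] [Fintype G] [AddCommGroup E] [Fintype E]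
  {p : G →+ E} {h : ℤ}

lemma InBasin.lift (hp : Fib p h) {A B C : Set E} {σ t : ℤ} (hb : InBasin A B C σ)
    (h1 : h * (σ - 1) < t) (h2 : t < h * (σ + 1)) :
    InBasin (p ⁻¹' A) (p ⁻¹' B) (p ⁻¹' C) t := by
  obtain ⟨D, i1, i2, f, k, A', B', C', s, hn⟩ := hb
  have key : ∀ (X : Set E) (X' : Set D),
      sz (p ⁻¹' X \ (f.comp p) ⁻¹' X') = h * sz (X \ f ⁻¹' X') ∧
      sz ((f.comp p) ⁻¹' X' \ p ⁻¹' X) = h * sz (f ⁻¹' X' \ X) := by
    intro X X'
    constructor
    · rw [← hp.sz]; rfl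
    · rw [← hp.sz]; rfl
  have hpos := hp.pos
  refine ⟨D, i1, i2, f.comp p, h * k, A', B', C', s, hp.comp hn.fib, hn.crit, ?_, ?_⟩
  · rw [(key A A').1, (key B B').1, (key C C').1]
    have : h * (s * k + sz (A \ f ⁻¹' A') + sz (B \ f ⁻¹' B') + sz (C \ f ⁻¹' C')) ≤
        h * (σ - 1) := mul_le_mul_of_nonneg_left (by have := hn.lo; omega) (by omega)
    linarith
  · rw [(key A A').2, (key B B').2, (key C C').2]
    have : h * (σ + 1 + sz (f ⁻¹' A' \ A) + sz (f ⁻¹' B' \ B) + sz (f ⁻¹' C' \ C)) ≤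
        h * ((s + 1) * k) := mul_le_mul_of_nonneg_left (by have := hn.hi; omega) (by omega)
    linarith

lemma Phi_lift (hp : Fib p h) (A B C : Set E) (σ v : ℤ) :
    Phi (p ⁻¹' A) (p ⁻¹' B) (p ⁻¹' C) (σ * h + v) =
      v * (h - v) + h * ((h - v) * Phi A B C σ + v * Phi A B C (σ + 1)) := by
  unfold Phi
  rw [hp.TT, hp.sz, hp.sz, hp.sz, hp.card]
  ring

lemma lift_pos (hp : Fib p h) (hE : ThmB E) (A B C : Set E) (σ v : ℤ) (hv : 0 ≤ v) (hvh : v < h)
    (hpos : 0 < Phi A B C σ ∨ (0 < v ∧ 0 < Phi A B C (σ + 1))) :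
    InBasin (p ⁻¹' A) (p ⁻¹' B) (p ⁻¹' C) (σ * h + v) := by
  rcases hpos with h1 | ⟨h1, h2⟩
  · exact (hE A B C σ h1).lift hp (by linarith) (by linarith)
  · exact (hE A B C (σ + 1) h2).lift hp (by linarith) (by linarith)

lemma lift_third (hp : Fib p h) (hE : ThmB E) (A B C : Set E) (σ v : ℤ) (hv : 0 < v)
    (hvh : v < h) (h1 : Phi A B C σ = 0) (h2 : Phi A B C (σ + 1) = 0)
    (hpos : 0 < Phi (p ⁻¹' A) (p ⁻¹' B) (p ⁻¹' C) (σ * h + v)) :
    InBasin (p ⁻¹' A) (p ⁻¹' B) (p ⁻¹' C) (σ * h + v) ∨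
      ((∀ x ∈ C, rr A B x ≤ σ) ∧ ∀ x ∉ C, σ + 1 ≤ rr A B x) := by
  set C0 : Set E := {g | rr A B g ≤ σ} with hC0
  have s1 := Phi_step A B C C0 σ 0 1 (fun x hx => by simpa [hC0] using hx)
    (fun x hx => by simpa [hC0] using hx)
  have s2 := Phi_step A B C C0 (σ + 1) 1 0 (fun x hx => by simpa [hC0] using hx)
    (fun x hx => by simpa [hC0] using hx)
  by_cases c1 : 0 < sz (C \ C0)
  · left
    exact (lift_pos hp hE A B C0 σ v hv.le hvh (Or.inl (by linarith))).change3 _ hpos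
  by_cases c2 : 0 < sz (C0 \ C)
  · left
    exact (lift_pos hp hE A B C0 σ v hv.le hvh (Or.inr ⟨hv, by linarith⟩)).change3 _ hpos
  right
  have e1 := Set.sdiff_eq_empty.1 (eq_empty_of_sz (not_lt.1 c1))
  have e2 := Set.sdiff_eq_empty.1 (eq_empty_of_sz (not_lt.1 c2))
  refine ⟨fun x hx => e1 hx, fun x hx => ?_⟩
  by_contra hn
  exact hx (e2 (by simp only [hC0, Set.mem_ofPred_eq]; omega))

lemma lift_all (hp : Fib p h) (hE : ThmB E) (A B C : Set E) (t : ℤ)
    (hpos : 0 < Phi (p ⁻¹' A) (p ⁻¹' B) (p ⁻¹' C) t) :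
    InBasin (p ⁻¹' A) (p ⁻¹' B) (p ⁻¹' C) t := by
  have hh := hp.pos
  obtain ⟨σ, v, hv, hvh, rfl⟩ : ∃ σ v, 0 ≤ v ∧ v < h ∧ t = σ * h + v :=
    ⟨t / h, t % h, Int.emod_nonneg _ (by omega), Int.emod_lt_of_pos _ (by omega),
      by rw [mul_comm]; exact (Int.mul_ediv_add_emod t h).symm⟩
  by_cases hc : 0 < Phi A B C σ ∨ (0 < v ∧ 0 < Phi A B C (σ + 1))
  · exact lift_pos hp hE A B C σ v hv hvh hc
  push Not at hc
  obtain ⟨c1, c2⟩ := hc
  have hl := Phi_lift hp A B C σ v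
  have hv0 : 0 < v := by
    rcases hv.lt_or_eq with h0 | h0
    · exact h0
    · subst h0
      have : h * (h * Phi A B C σ) ≤ 0 :=
        mul_nonpos_of_nonneg_of_nonpos (by omega) (mul_nonpos_of_nonneg_of_nonpos (by omega) c1)
      rw [hl] at hpos
      simp only [zero_mul, sub_zero, zero_add, add_zero] at hpos
      omega
  have c3 := c2 hv0
  rw [hl] at hpos
  have e1 : Phi A B C σ = 0 := by
    by_contra hn
    have a1 : (h - v) * Phi A B C σ ≤ (h - v) * (-1) :=
      mul_le_mul_of_nonneg_left (by omega) (by omega)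
    have a2 : v * Phi A B C (σ + 1) ≤ 0 := mul_nonpos_of_nonneg_of_nonpos hv c3
    have a3 : h * ((h - v) * Phi A B C σ + v * Phi A B C (σ + 1)) ≤ h * ((h - v) * (-1)) :=
      mul_le_mul_of_nonneg_left (by linarith) (by omega)
    have a4 : 0 ≤ (h - v) * (h - v) := mul_self_nonneg _
    nlinarith
  have e2 : Phi A B C (σ + 1) = 0 := by
    by_contra hn
    have a1 : v * Phi A B C (σ + 1) ≤ v * (-1) :=
      mul_le_mul_of_nonneg_left (by omega) (by omega)
    have a3 : h * ((h - v) * Phi A B C σ + v * Phi A B C (σ + 1)) ≤ h * (v * (-1)) :=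
      mul_le_mul_of_nonneg_left (by rw [e1]; linarith) (by omega)
    have a4 : 0 ≤ v * v := mul_self_nonneg _
    nlinarith
  rw [← hl] at hpos
  rcases lift_third hp hE A B C σ v hv0 hvh e1 e2 hpos with r | ⟨c1, c2⟩
  · exact r
  rcases lift_third hp hE A C B σ v hv0 hvh (by rwa [Phi_swap23]) (by rwa [Phi_swap23])
    (by rwa [Phi_swap23]) with r | ⟨b1, b2⟩
  · exact r.swap23
  rcases lift_third hp hE C B A σ v hv0 hvh (by rwa [Phi_swap13]) (by rwa [Phi_swap13])
    (by rwa [Phi_swap13]) with r | ⟨a1, a2⟩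
  · exact r.swap13
  have hsz : sz A + sz B + sz C - Fintype.card E = 2 * σ + 1 := by
    unfold Phi at e1 e2
    linarith
  refine ⟨E, inferInstance, inferInstance, p, h, A, B, C, σ, hp, ⟨hsz, ?_, ?_, ?_, b1, b2, c1, c2⟩,
    ?_, ?_⟩
  · unfold Phi at e1
    rw [hsz] at e1
    linarith
  · intro x hx; rw [rr_comm]; exact a1 x hx
  · intro x hx; rw [rr_comm]; exact a2 x hx
  · simp only [Set.sdiff_self, sz_empty]; linarith
  · simp only [Set.sdiff_self, sz_empty]; linarith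

end Lift

/-- induction hypothesis: the basin statement for all smaller groups -/
def IH (n : ℕ) : Prop :=
  ∀ (L : Type u) [AddCommGroup L] [Fintype L], Fintype.card L < n → ThmB L

lemma periodize3 {G : Type u} [AddCommGroup G] [Fintype G] (ih : IH.{u} (Fintype.card G))
    (A B C : Set G) (t : ℤ) (H : AddSubgroup G) (hH : 2 ≤ sz (H : Set G)) (hC : Per H C)
    (hpos : 0 < Phi A B C t) : InBasin A B C t := by
  classical
  let _ : Fintype (G ⧸ H) := Fintype.ofFinite _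
  have hp := fib_of_surj (QuotientAddGroup.mk' H) (QuotientAddGroup.mk'_surjective H)
  rw [QuotientAddGroup.ker_mk'] at hp
  have hcard : Fintype.card (G ⧸ H) < Fintype.card G := by
    have h1 := hp.card
    have h2 : 0 < Fintype.card (G ⧸ H) := Fintype.card_pos
    have h3 : (2 : ℤ) * Fintype.card (G ⧸ H) ≤ sz (H : Set G) * Fintype.card (G ⧸ H) :=
      mul_le_mul_of_nonneg_right hH (by positivity)
    omega
  have hE := ih (G ⧸ H) hcard
  set A1 : Set G := {g | rr B C g < t} with hA1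
  have hA1p : Per H A1 := hC.thr B t
  have p1 : 0 < Phi A1 B C t := by
    have := Phi_le_thr B C A t
    rw [Phi_swap13 B C A, Phi_swap23 A C B, Phi_swap13 B C, Phi_swap23 _ C B] at this
    exact hpos.trans_le this
  set B1 : Set G := {g | rr A1 C g < t} with hB1
  have hB1p : Per H B1 := hC.thr A1 t
  have p2 : 0 < Phi A1 B1 C t := by
    have := Phi_le_thr A1 C B t
    rw [Phi_swap23 A1 C B, Phi_swap23 A1 C] at this
    exact p1.trans_le this
  have := lift_all hp hE ((QuotientAddGroup.mk' H) '' A1) ((QuotientAddGroup.mk' H) '' B1)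
    ((QuotientAddGroup.mk' H) '' C) t
  rw [hA1p.eq_preimage, hB1p.eq_preimage, hC.eq_preimage] at this
  exact ((this p2).change2 B p1).change1 A hpos

end Pool.Agent.Lib.MP_cd64ef_nt
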