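import Pool.Agent.Lib.MP_cd64ef_nt.Sub

set_option autoImplicit false

namespace Pool.Agent.Lib.MP_cd64ef_nt

open Finset

universe u

section
variable {G D : Type*} [AddCommGroup G] [Fintype G] [AddCommGroup D] [Fintype D]

/-- number of points of X in the fibre over y -/
noncomputable def fc (f : G →+ D) (X : Set G) (y : D) : ℤ := sz (f ⁻¹' {y} ∩ X)

omit [Fintype D] in
lemma fc_nonneg (f : G →+ D) (X : Set G) (y : D) : 0 ≤ fc f X y := sz_nonneg _

lemma fc_le {f : G →+ D} {k : ℤ} (hf : Fib f k) (X : Set G) (y : D) : fc f X y ≤ k := by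
  rw [← hf.fibre y]; exact sz_mono Set.inter_subset_left

lemma fsum_fc (f : G →+ D) (φ : D → ℤ) (X : Set G) :
    ∑ v, φ (f v) * ind X v = ∑ y, φ y * fc f X y := by
  rw [← fsum]
  simp only [fc, sz, ind_inter]

omit [Fintype D] in
lemma rr_dyson (X Y : Set G) (g : G) :
    rr X Y g = rr (X ∪ Y) (X ∩ Y) g + rr (X \ Y) (Y \ X) g := by
  have h1 := sum_swap g (fun a b => ind X a * ind Y a * (ind Y b * (1 - ind X b)))
  have : rr X Y g + ∑ v, ind X (-g - v) * ind Y (-g - v) * (ind Y v * (1 - ind X v)) =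
      rr (X ∪ Y) (X ∩ Y) g + rr (X \ Y) (Y \ X) g +
        ∑ v, ind X v * ind Y v * (ind Y (-g - v) * (1 - ind X (-g - v))) := by
    simp only [rr, ← Finset.sum_add_distrib, ind_union, ind_inter, ind_diff]
    refine Finset.sum_congr rfl fun v _ => ?_
    rcases ind_cases X v with h1 | h1 <;> rcases ind_cases Y v with h2 | h2 <;>
      rcases ind_cases X (-g - v) with h3 | h3 <;> rcases ind_cases Y (-g - v) with h4 | h4 <;>
      simp [h1, h2, h3, h4]
  linarith

omit [Fintype D] in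
lemma rr_split (U X Y : Set G) (g : G) : rr X Y g = rr (U ∩ X) Y g + rr (X \ U) Y g := by
  simp only [rr, ← Finset.sum_add_distrib, ind_inter, ind_diff]
  exact Finset.sum_congr rfl fun v _ => by ring

omit [Fintype D] in
lemma Phi_dyson (A B C : Set G) (t : ℤ) :
    Phi A B C t = Phi (A ∪ B) (A ∩ B) C t - TT (A \ B) (B \ A) C := by
  unfold Phi
  have h1 := sz_union_add_inter A B
  have h2 : TT A B C = TT (A ∪ B) (A ∩ B) C + TT (A \ B) (B \ A) C := by
    simp only [TT, ← Finset.sum_add_distrib]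
    exact Finset.sum_congr rfl fun g _ => by rw [rr_dyson A B g]; ring
  rw [h1, h2]; ring

/-- the correction term of a fibre y relative to the fibre zb -/
noncomputable def Dl (f : G →+ D) (P Q : Set G) (zb y : D) : ℤ :=
  (1 - ind {y} (-zb - y)) * (fc f Pᶜ y * fc f Q y)

/-- fibres y with both y and -zb-y in P' \ Q' -/
def Wz (P' Q' : Set D) (zb : D) : Set D := {x | x ∈ P' \ Q' ∧ -zb - x ∈ P' \ Q'}

omit [Fintype D] in
lemma Dl_nonneg (f : G →+ D) (P Q : Set G) (zb y : D) : 0 ≤ Dl f P Q zb y :=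
  mul_nonneg (by have := ind_le_one ({y} : Set D) (-zb - y); omega)
    (mul_nonneg (fc_nonneg _ _ _) (fc_nonneg _ _ _))

lemma refine_pt (k o q a b l : ℤ) (ho : 0 ≤ o) (hq : 0 ≤ q) (hok : o ≤ k) (hqk : q ≤ k)
    (ha : 0 ≤ a) (hb : 0 ≤ b) :
    o * q * (a + b + 1 - l) ≤ k * a * o + k * b * q + (1 - l) * (o * q) := by
  have h1 : q * (a * o) ≤ k * (a * o) := mul_le_mul_of_nonneg_right hqk (mul_nonneg ha ho)
  have h2 : o * (b * q) ≤ k * (b * q) := mul_le_mul_of_nonneg_right hok (mul_nonneg hb hq)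
  linarith

lemma sum_Dl {P' Q' : Set D} (hQP : Q' ⊆ P') (C' : Set D) (f : G →+ D) (P Q : Set G) :
    ∑ zb, ind C' zb * ∑ y, ind (Wz P' Q' zb) y * Dl f P Q zb y =
      ∑ y, ind (P' \ Q') y * (fc f Pᶜ y * fc f Q y *
        (rr P' C' y - rr Q' C' y - ind C' (-y - y))) := by
  simp only [Finset.mul_sum]
  rw [Finset.sum_comm]
  refine Finset.sum_congr rfl fun y _ => ?_
  by_cases hy : y ∈ P' \ Q'
  · have e1 : ∀ zb, ind C' zb * (ind (Wz P' Q' zb) y * Dl f P Q zb y) =
        fc f Pᶜ y * fc f Q y * (ind C' zb * ind P' (-y - zb) - ind C' zb * ind Q' (-y - zb) -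
          ind {-y - y} zb * ind C' zb) := by
      intro zb
      have e2 : -zb - y = -y - zb := by abel
      have e3 : ind (Wz P' Q' zb) y = ind P' (-y - zb) - ind Q' (-y - zb) := by
        rw [ind_congr (X := Wz P' Q' zb) (Y := P' \ Q') (x := y) (y := -y - zb)
          (by simp only [Wz, Set.mem_ofPred_eq, hy, true_and, e2])]
        by_cases h1 : -y - zb ∈ Q'
        · rw [ind_of_not (fun h => h.2 h1), ind_of_mem h1, ind_of_mem (hQP h1)]; ring
        · rw [ind_diff, ind_of_not h1]; ring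
      by_cases hz : zb = -y - y
      · have e4 : -y - zb = y := by rw [hz]; abel
        have e5 : ind ({y} : Set D) (-zb - y) = 1 := ind_of_mem (by rw [e2, e4]; rfl)
        have e6 : ind ({-y - y} : Set D) zb = 1 := ind_of_mem hz
        rw [Dl, e5, e6, e4, ind_of_mem hy.1, ind_of_not hy.2]; ring
      · have e5 : ind ({y} : Set D) (-zb - y) = 0 := by
          refine ind_of_not fun h => hz ?_
          have h' : -zb - y = y := h
          rw [← h']; nth_rewrite 2 [← h']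
          have : zb = -y - (-zb - y) - y + y := by abel
          rw [h'] at this ⊢
          rw [h', this]; abel
        have e6 : ind ({-y - y} : Set D) zb = 0 := ind_of_not hz
        rw [Dl, e5, e6, e3]; ring
    simp only [e1]
    rw [← Finset.mul_sum, Finset.sum_sub_distrib, Finset.sum_sub_distrib, sum_ind_single,
      ind_of_mem hy, one_mul, rr_comm P' C', rr_comm Q' C']
    rfl
  · rw [ind_of_not hy, zero_mul]
    refine Finset.sum_eq_zero fun zb _ => ?_
    rw [ind_of_not (X := Wz P' Q' zb) (fun h => hy h.1)]; ring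

variable {f : G →+ D} {k : ℤ} {P' Q' C' : Set D} {s : ℤ}

lemma refined (hf : Fib f k) (hc : Crit P' Q' C' s) (hQP : Q' ⊆ P') (P Q : Set G) (t : ℤ) :
    Phi P Q (f ⁻¹' C') t + ∑ zb, ind C' zb * ∑ y, ind (Wz P' Q' zb) y * Dl f P Q zb y ≤
      (t - s * k - sz (P \ f ⁻¹' P') - sz (Q \ f ⁻¹' Q')) *
      ((s + 1) * k - t - sz (f ⁻¹' P' \ P) - sz (f ⁻¹' Q' \ Q)) := by
  have hk := hf.pos
  have h0 := Phi_centre hf hc t
  have a1 : Phi P (f ⁻¹' Q') (f ⁻¹' C') t + ∑ v, (ind P' (f v) * (k * (s - rr Q' C' (f v)))) *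
      ind Pᶜ v ≤ Phi (f ⁻¹' P') (f ⁻¹' Q') (f ⁻¹' C') t -
        ((s + 1) * k - t) * sz (P \ f ⁻¹' P') - (t - s * k) * sz (f ⁻¹' P' \ P) := by
    rw [Phi_swap13 P, Phi_swap13 (f ⁻¹' P'), Phi_eq_sum, Phi_eq_sum]
    have : ∑ g, ind P g * (t - rr (f ⁻¹' C') (f ⁻¹' Q') g) +
        ∑ v, (ind P' (f v) * (k * (s - rr Q' C' (f v)))) * ind Pᶜ v ≤
        ∑ g, ind (f ⁻¹' P') g * (t - rr (f ⁻¹' C') (f ⁻¹' Q') g) -
        ((s + 1) * k - t) * sz (P \ f ⁻¹' P') - (t - s * k) * sz (f ⁻¹' P' \ P) := by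
      simp only [sz, Finset.mul_sum, ← Finset.sum_sub_distrib, ← Finset.sum_add_distrib]
      refine Finset.sum_le_sum fun v _ => ?_
      simp only [ind_diff, ind_compl, ind_preimage, hf.rr, rr_comm C' Q']
      by_cases h1 : f v ∈ P'
      · rw [ind_of_mem h1]
        rcases ind_cases P v with h2 | h2 <;> rw [h2] <;> linarith
      · have := mul_le_mul_of_nonneg_left (hc.outA _ h1) (show 0 ≤ k by omega)
        rw [ind_of_not h1]
        rcases ind_cases P v with h2 | h2 <;> rw [h2] <;> linarith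
    linarith
  have a2 : Phi P Q (f ⁻¹' C') t + ∑ v, ((1 - ind Q' (f v)) * (k * (rr P' C' (f v) - s - 1) +
      (1 - ind C' (-f v - f v)) * (ind P' (f v) * fc f Pᶜ (f v)))) * ind Q v ≤
      Phi P (f ⁻¹' Q') (f ⁻¹' C') t -
        ((s + 1) * k - t - sz (f ⁻¹' P' \ P)) * sz (Q \ f ⁻¹' Q') -
        (t - s * k - sz (P \ f ⁻¹' P')) * sz (f ⁻¹' Q' \ Q) := by
    rw [Phi_swap23 P Q, Phi_swap23 P (f ⁻¹' Q'), Phi_eq_sum, Phi_eq_sum]
    have : ∑ g, ind Q g * (t - rr P (f ⁻¹' C') g) +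
        ∑ v, ((1 - ind Q' (f v)) * (k * (rr P' C' (f v) - s - 1) +
      (1 - ind C' (-f v - f v)) * (ind P' (f v) * fc f Pᶜ (f v)))) * ind Q v ≤
        ∑ g, ind (f ⁻¹' Q') g * (t - rr P (f ⁻¹' C') g) -
        ((s + 1) * k - t - sz (f ⁻¹' P' \ P)) * ∑ v, ind (Q \ f ⁻¹' Q') v -
        (t - s * k - sz (P \ f ⁻¹' P')) * ∑ v, ind (f ⁻¹' Q' \ Q) v := by
      simp only [Finset.mul_sum, ← Finset.sum_sub_distrib, ← Finset.sum_add_distrib]
      refine Finset.sum_le_sum fun v _ => ?_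
      simp only [ind_diff, ind_preimage]
      by_cases h1 : f v ∈ Q'
      · have := rr_in hf hc.swap23 P (f ⁻¹' C') v h1
        rw [Set.sdiff_self, sz_empty] at this
        rw [ind_of_mem h1]
        rcases ind_cases Q v with h2 | h2 <;> rw [h2] <;> linarith
      · have b1 : rr (f ⁻¹' P') (f ⁻¹' C') v ≤
            rr P (f ⁻¹' C') v + rr (f ⁻¹' P' \ P) (f ⁻¹' C') v := by
          rw [rr_split P (f ⁻¹' P')]
          have := rr_mono (Set.inter_subset_left (s := P) (t := f ⁻¹' P'))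
            (subset_refl (f ⁻¹' C')) v
          linarith
        have b2 := rr_compl (f ⁻¹' P' \ P) (f ⁻¹' C') v
        have b3 : (1 - ind C' (-f v - f v)) * (ind P' (f v) * fc f Pᶜ (f v)) ≤
            rr (f ⁻¹' P' \ P) (f ⁻¹' C')ᶜ v := by
          simp only [fc, sz, rr, Finset.mul_sum]
          refine Finset.sum_le_sum fun x _ => ?_
          by_cases hx : f x = f v
          · simp only [ind_inter, ind_diff, ind_compl, ind_preimage, map_sub, map_neg, hx]
            rw [ind_of_mem (Set.mem_singleton _)]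
            linarith
          · rw [ind_of_not (X := f ⁻¹' {f v} ∩ Pᶜ) (fun h => hx h.1)]
            simp only [mul_zero]
            exact mul_nonneg (ind_nonneg _ _) (ind_nonneg _ _)
        rw [hf.rr] at b1
        rw [ind_of_not h1]
        rcases ind_cases Q v with h2 | h2 <;> rw [h2] <;> linarith
    unfold sz at this ⊢
    linarith
  rw [fsum_fc f (fun y => ind P' y * (k * (s - rr Q' C' y)))] at a1
  rw [fsum_fc f (fun y => (1 - ind Q' y) * (k * (rr P' C' y - s - 1) +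
      (1 - ind C' (-y - y)) * (ind P' y * fc f Pᶜ y)))] at a2
  have a3 : ∑ y, ind (P' \ Q') y * (fc f Pᶜ y * fc f Q y *
        (rr P' C' y - rr Q' C' y - ind C' (-y - y))) ≤
      ∑ y, ind P' y * (k * (s - rr Q' C' y)) * fc f Pᶜ y +
      ∑ y, (1 - ind Q' y) * (k * (rr P' C' y - s - 1) +
      (1 - ind C' (-y - y)) * (ind P' y * fc f Pᶜ y)) * fc f Q y := by
    rw [← Finset.sum_add_distrib]
    refine Finset.sum_le_sum fun y _ => ?_
    have o0 := fc_nonneg f Pᶜ y
    have q0 := fc_nonneg f Q y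
    rw [ind_diff]
    by_cases h1 : y ∈ P' <;> by_cases h2 : y ∈ Q'
    · have := mul_nonneg (mul_nonneg (show 0 ≤ k by omega)
        (show 0 ≤ s - rr Q' C' y by have := hc.inA y h1; omega)) o0
      rw [ind_of_mem h1, ind_of_mem h2]; linarith
    · have := refine_pt k _ _ (s - rr Q' C' y) (rr P' C' y - s - 1) (ind C' (-y - y)) o0 q0
        (fc_le hf _ _) (fc_le hf _ _) (by have := hc.inA y h1; omega)
        (by have := hc.outB y h2; omega)
      rw [ind_of_mem h1, ind_of_not h2]; linarith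
    · exact absurd (hQP h2) h1
    · have := mul_nonneg (mul_nonneg (show 0 ≤ k by omega)
        (show 0 ≤ rr P' C' y - s - 1 by have := hc.outB y h2; omega)) q0
      rw [ind_of_not h1, ind_of_not h2]; linarith
  rw [sum_Dl hQP]
  have n1 := mul_nonneg (sz_nonneg (P \ f ⁻¹' P')) (sz_nonneg (f ⁻¹' P' \ P))
  have n2 := mul_nonneg (sz_nonneg (Q \ f ⁻¹' Q')) (sz_nonneg (f ⁻¹' Q' \ Q))
  linarith

/-- the loss attached to the fibre zb -/
noncomputable def Om (f : G →+ D) (P' Q' : Set D) (A B C : Set G) (t : ℤ) (zb : D) : ℤ :=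
  ∑ g, ind (f ⁻¹' {zb}) g * (ind C g * rr (A \ B) (B \ A) g +
    (1 - ind C g) * (t - rr (A ∪ B) (A ∩ B) g)) +
  ∑ y, ind (Wz P' Q' zb) y * Dl f (A ∪ B) (A ∩ B) zb y

lemma master (hf : Fib f k) (hc : Crit P' Q' C' s) (hQP : Q' ⊆ P') (A B C : Set G) (t : ℤ)
    (hC : C ⊆ f ⁻¹' C') :
    Phi A B C t + ∑ zb, ind C' zb * Om f P' Q' A B C t zb ≤
      (t - s * k - sz ((A ∪ B) \ f ⁻¹' P') - sz ((A ∩ B) \ f ⁻¹' Q')) *
      ((s + 1) * k - t - sz (f ⁻¹' P' \ (A ∪ B)) - sz (f ⁻¹' Q' \ (A ∩ B))) := by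
  have h1 := refined hf hc hQP (A ∪ B) (A ∩ B) t
  simp only [Om, mul_add (ind C' _), Finset.sum_add_distrib]
  rw [fsum f (ind C'), Phi_dyson, Phi_eq_sum]
  rw [Phi_eq_sum] at h1
  have : ∑ g, ind C g * (t - rr (A ∪ B) (A ∩ B) g) - TT (A \ B) (B \ A) C +
      ∑ v, ind C' (f v) * (ind C v * rr (A \ B) (B \ A) v +
        (1 - ind C v) * (t - rr (A ∪ B) (A ∩ B) v)) =
      ∑ g, ind (f ⁻¹' C') g * (t - rr (A ∪ B) (A ∩ B) g) := by
    simp only [TT, ← Finset.sum_sub_distrib, ← Finset.sum_add_distrib]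
    refine Finset.sum_congr rfl fun g _ => ?_
    rw [ind_preimage]
    by_cases hg : g ∈ C
    · rw [ind_of_mem hg, ind_of_mem (show f g ∈ C' from hC hg)]; ring
    · rw [ind_of_not hg]; ring
  linarith

end

end Pool.Agent.Lib.MP_cd64ef_nt
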