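import Pool.Agent.Lib.MP_cd64ef_nt.Olson

set_option autoImplicit false

namespace Pool.Agent.Lib.MP_cd64ef_nt

open Finset

universe u

lemma inter_le_add {G : Type*} [AddCommGroup G] [Fintype G] (X X0 Y Y0 : Set G) (e : G) :
    ∑ l, ind X l * ind Y (l + e) ≤
      ∑ l, ind X0 l * ind Y0 (l + e) + sz (X \ X0) + sz (Y \ Y0) := by
  rw [← show ∑ l, ind (Y \ Y0) (l + e) = sz (Y \ Y0) from sum_shift e (ind (Y \ Y0))]
  simp only [sz, ← Finset.sum_add_distrib, ind_diff]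
  refine Finset.sum_le_sum fun v _ => ?_
  rcases ind_cases X v with h1 | h1 <;> rcases ind_cases X0 v with h2 | h2 <;>
    rcases ind_cases Y (v + e) with h3 | h3 <;> rcases ind_cases Y0 (v + e) with h4 | h4 <;>
    simp [h1, h2, h3, h4]

lemma Near.common {G D : Type*} [AddCommGroup G] [Fintype G] [AddCommGroup D] [Fintype D]
    {f : G →+ D} {k : ℤ} {A' B' C' : Set D} {s : ℤ} {A B C : Set G} {t : ℤ}
    (h : Near f k A' B' C' s A B C t) (e : G) (hq : ∑ l, ind A l * ind B (l + e) ≤ t) :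
    ∑ l, ind A l * ind B (l + e) ≤ s * k + sz (A \ f ⁻¹' A') + sz (B \ f ⁻¹' B') := by
  have h1 := inter_le_add A (f ⁻¹' A') B (f ⁻¹' B') e
  have h2 := inter_le_add (f ⁻¹' A') A (f ⁻¹' B') B e
  have h3 : ∑ l, ind (f ⁻¹' A') l * ind (f ⁻¹' B') (l + e) =
      k * ∑ y, ind A' y * ind B' (y + f e) := by
    rw [← h.fib (fun y => ind A' y * ind B' (y + f e))]
    simp [ind_preimage]
  rw [h3] at h1 h2
  have h4 := h.hi
  have h5 := sz_nonneg (f ⁻¹' C' \ C)
  have hk := h.fib.pos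
  by_cases hm : ∑ y, ind A' y * ind B' (y + f e) ≤ s
  · have := mul_le_mul_of_nonneg_left hm (show 0 ≤ k by omega)
    linarith
  · have := mul_le_mul_of_nonneg_left (show s + 1 ≤ ∑ y, ind A' y * ind B' (y + f e) by omega)
      (show 0 ≤ k by omega)
    linarith

lemma sum_coset {G : Type*} [AddCommGroup G] [Fintype G] (K : AddSubgroup G) [Fintype K]
    (g0 : G) (F : G → ℤ) :
    ∑ h : K, F (h + g0) = ∑ v, ind {g | g - g0 ∈ K} v * F v := by
  classical
  rw [← sum_shift g0 (fun v => ind {g | g - g0 ∈ K} v * F v)]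
  rw [← Finset.sum_subtype (Finset.univ.filter (· ∈ K)) (p := (· ∈ K)) (by simp)
    (fun v => F (v + g0)), Finset.sum_filter]
  refine Finset.sum_congr rfl fun v _ => ?_
  by_cases hv : v ∈ K
  · rw [ind_of_mem (by simpa using hv)]; simp [hv]
  · rw [ind_of_not (by simpa using hv)]; simp [hv]

lemma sz_coset {G : Type*} [AddCommGroup G] [Fintype G] (K : AddSubgroup G) [Fintype K]
    (g0 : G) (X : Set G) :
    sz ({g | g - g0 ∈ K} ∩ X) = sz {h : K | (h : G) + g0 ∈ X} := by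
  unfold sz
  simp only [ind_inter]
  rw [← sum_coset]
  rfl

lemma sum_sheet {K E : Type*} [Fintype K] [Fintype E] [Zero E] (F : K × E → ℤ) :
    ∑ l : K × E, ind {l : K × E | l.2 = 0} l * F l = ∑ h, F (h, 0) := by
  rw [Fintype.sum_prod_type]
  refine Finset.sum_congr rfl fun h _ => ?_
  rw [← sum_ind_single (0 : E) (fun e => F (h, e))]
  rfl

lemma sz_sheet {K E : Type*} [Fintype K] [Fintype E] [Zero E] (X : Set (K × E)) :
    sz ({l : K × E | l.2 = 0} ∩ X) = sz {h | (h, 0) ∈ X} := by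
  unfold sz
  simp only [ind_inter]
  rw [sum_sheet]
  rfl

/-- output of the local analysis on a union U of one or two fibres -/
def SubOut {G : Type*} [AddCommGroup G] [Fintype G] (U Z A B C : Set G) (z τ Φ : ℤ) : Prop :=
  ∃ (S : Set G) (L1 : AddSubgroup G) (z1 w1 W1 : ℤ),
    S ⊆ Z ∧ Per L1 (Z \ S) ∧ (∀ g ∈ S, rr (U ∩ A) B g ≤ τ - z1) ∧
    (∀ g ∈ Z, g ∉ S → τ + w1 ≤ rr (U ∩ A) B g) ∧ sz ((Z ∩ C) \ S) < z1 ∧ z1 ≤ z ∧ 1 ≤ W1 ∧
    W1 ≤ w1 ∧ Φ ≤ (z1 - sz ((Z ∩ C) \ S)) * W1 ∧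
    sz (U ∩ A) + sz (U ∩ B) + sz (Z ∩ C) - sz U = 2 * τ - (z1 - sz ((Z ∩ C) \ S)) + W1 ∧
    sz (S \ C) + z1 + W1 ≤ sz (L1 : Set G)

lemma sub_out {G : Type u} [AddCommGroup G] [Fintype G] (ih : IH.{u} (Fintype.card G))
    (K : AddSubgroup G) [Fintype K] {E : Type} [AddCommGroup E] [Fintype E] (o : E) (ρ : E → G)
    (g0 : G) (U A B C : Set G) (z τ : ℤ) (hρ : ∀ e, ρ e + ρ (o - e) = -g0)
    (hU : ∀ F : G → ℤ, ∑ l : K × E, F (l.1 + ρ l.2) = ∑ v, ind U v * F v)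
    (hcard : sz U < Fintype.card G) (hτ : τ = z + sz (U ∩ (A ∩ B))) (hz : 1 ≤ z)
    (hc : z < sz ({g | g - g0 ∈ K} ∩ C))
    (hpos : 0 < τ * (sz (U ∩ A) + sz (U ∩ B) + sz ({g | g - g0 ∈ K} ∩ C) - sz U) - τ ^ 2 -
      TT (U ∩ A) B ({g | g - g0 ∈ K} ∩ C)) :
    SubOut U {g | g - g0 ∈ K} A B C z τ
      (τ * (sz (U ∩ A) + sz (U ∩ B) + sz ({g | g - g0 ∈ K} ∩ C) - sz U) - τ ^ 2 -
        TT (U ∩ A) B ({g | g - g0 ∈ K} ∩ C)) := by
  classical
  set Z : Set G := {g | g - g0 ∈ K} with hZ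
  set At : Set (K × E) := {l | (l.1 : G) + ρ l.2 ∈ A} with hAt
  set Bt : Set (K × E) := {l | (l.1 : G) + ρ (o + l.2) ∈ B} with hBt
  set Ct : Set (K × E) := {l : K × E | l.2 = 0} ∩ {l | (l.1 : G) + g0 ∈ C} with hCt
  have eL : (Fintype.card (K × E) : ℤ) = sz U := by
    have := hU (fun _ => 1)
    simpa [sz] using this
  have eA : sz At = sz (U ∩ A) := by
    unfold sz
    simp only [ind_inter]
    rw [← hU]; rfl
  have eB : sz Bt = sz (U ∩ B) := by
    rw [← sz_shift Bt (0, -o)]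
    unfold sz
    simp only [ind_inter]
    rw [← hU]
    refine Finset.sum_congr rfl fun l _ => ind_congr ?_
    simp [hBt]
  have eQ : ∑ l, ind At l * ind Bt (l + (0, -o)) = sz (U ∩ (A ∩ B)) := by
    unfold sz
    simp only [ind_inter]
    rw [← hU]
    refine Finset.sum_congr rfl fun l _ => ?_
    congr 1
    refine ind_congr ?_
    simp [hBt]
  have eC : sz Ct = sz (Z ∩ C) := by
    rw [sz_sheet, sz_coset]; rfl
  have eR : ∀ h : K, rr At Bt (h, 0) = rr (U ∩ A) B (h + g0) := by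
    intro h
    unfold rr
    simp only [ind_inter, mul_assoc]
    rw [← hU]
    refine Finset.sum_congr rfl fun l _ => ?_
    congr 1
    refine ind_congr ?_
    have e1 : ρ (o - l.2) = -g0 - ρ l.2 := by rw [← hρ l.2]; abel
    have e2 : ((-(h, (0 : E)) - l).1 : G) + ρ (o + (-(h, (0 : E)) - l).2) =
        -(h + g0) - (l.1 + ρ l.2) := by
      simp only [Prod.neg_mk, Prod.fst_sub, Prod.snd_sub, neg_zero, zero_sub,
        AddSubgroup.coe_sub, AddSubgroup.coe_neg]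
      rw [← sub_eq_add_neg, e1]; abel
    simp only [hBt, Set.mem_ofPred_eq]
    rw [e2]
  have eT : TT At Bt Ct = TT (U ∩ A) B (Z ∩ C) := by
    unfold TT
    simp only [hCt, ind_inter, mul_assoc]
    rw [sum_sheet, ← sum_coset]
    refine Finset.sum_congr rfl fun h _ => ?_
    rw [eR]; rfl
  have eP : Phi At Bt Ct τ = τ * (sz (U ∩ A) + sz (U ∩ B) + sz (Z ∩ C) - sz U) - τ ^ 2 -
      TT (U ∩ A) B (Z ∩ C) := by
    unfold Phi; rw [eA, eB, eC, eT, eL]
  rw [← eP] at hpos ⊢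
  obtain ⟨D, i1, i2, f, k, A', B', C', s, hn⟩ :=
    ih (K × E) (by omega) At Bt Ct τ hpos
  have hcom := hn.common (0, -o) (by rw [eQ]; omega)
  rw [eQ] at hcom
  set S : Set G := {g | ∃ h : K, (h : G) + g0 = g ∧ f (h, 0) ∈ C'} with hS
  set L1 : AddSubgroup G := ((f.comp (AddMonoidHom.inl K E)).ker).map K.subtype with hL1
  have memS : ∀ h : K, (h : G) + g0 ∈ S ↔ f (h, 0) ∈ C' := by
    intro h
    constructor
    · rintro ⟨h', e, hh⟩
      have : h' = h := Subtype.ext (add_right_cancel e)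
      rwa [← this]
    · intro hh; exact ⟨h, rfl, hh⟩
  have memZ : ∀ g ∈ Z, ∃ h : K, (h : G) + g0 = g := fun g hg => ⟨⟨g - g0, hg⟩, by simp⟩
  have hSZ : S ⊆ Z := by
    rintro g ⟨h, rfl, -⟩
    simp [hZ]
  have eJ : sz (Ct \ f ⁻¹' C') = sz ((Z ∩ C) \ S) := by
    rw [hCt, Set.inter_sdiff_assoc, Set.inter_sdiff_assoc, sz_sheet, sz_coset]
    congr 1
    ext h
    simp [memS]
  have eI : sz (f ⁻¹' C' \ Ct) = sz (S \ C) + sz (f ⁻¹' C' \ {l : K × E | l.2 = 0}) := by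
    rw [← sz_inter_add_diff (f ⁻¹' C' \ Ct) {l : K × E | l.2 = 0}, Set.inter_comm, sz_sheet]
    congr 1
    · have : S \ C = Z ∩ (S \ C) := (Set.inter_eq_right.2 fun g hg => hSZ hg.1).symm
      rw [this, sz_coset]
      congr 1
      ext h
      simp [memS, hCt]
    · congr 1
      ext l
      simp only [hCt, Set.mem_sdiff, Set.mem_inter_iff, Set.mem_ofPred_eq]
      tauto
  have eL1 : sz (L1 : Set G) = sz {h : K | f (h, 0) = 0} := by
    have : (L1 : Set G) = {g | g - 0 ∈ K} ∩ L1 := by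
      refine (Set.inter_eq_right.2 ?_).symm
      rintro g ⟨h, -, rfl⟩
      simp
    rw [this, sz_coset]
    congr 1
    ext h
    simp [hL1]
  have hlo := hn.lo
  have hhi := hn.hi
  have n1 := sz_nonneg (At \ f ⁻¹' A')
  have n2 := sz_nonneg (Bt \ f ⁻¹' B')
  have n3 := sz_nonneg (f ⁻¹' A' \ At)
  have n4 := sz_nonneg (f ⁻¹' B' \ Bt)
  have n5 := sz_nonneg (f ⁻¹' C' \ Ct)
  have hne : ∃ l0, f l0 ∈ C' := by
    by_contra hc'
    push Not at hc'
    have : Ct \ f ⁻¹' C' = Ct := by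
      ext l; simpa using fun _ => hc' l
    rw [this, eC] at hlo
    omega
  have hk : k ≤ sz (L1 : Set G) + sz (f ⁻¹' C' \ {l : K × E | l.2 = 0}) := by
    obtain ⟨l0, hl0⟩ := hne
    rw [← hn.fib.fibre (f l0), ← sz_inter_add_diff (f ⁻¹' {f l0}) {l : K × E | l.2 = 0},
      Set.inter_comm, sz_sheet, eL1]
    refine add_le_add ?_ (sz_mono fun l hl => ⟨?_, hl.2⟩)
    · by_cases hx : ∃ h0 : K, f (h0, 0) = f l0
      · obtain ⟨h0, hh0⟩ := hx
        rw [← sz_shift _ h0]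
        refine sz_mono fun h hh => ?_
        simp only [Set.mem_ofPred_eq, Set.mem_preimage, Set.mem_singleton_iff] at hh ⊢
        have : ((h + h0, 0) : K × E) = (h, 0) + (h0, 0) := by simp
        rw [this, map_add, hh0] at hh
        simpa using hh
      · have : {h : K | (h, (0 : E)) ∈ f ⁻¹' {f l0}} = ∅ := by
          ext h; simpa using fun hh => hx ⟨h, hh⟩
        rw [this, sz_empty]; exact sz_nonneg _
    · have : f l = f l0 := hl.1
      simp only [Set.mem_preimage, this, hl0]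
  refine ⟨S, L1, τ - s * k - sz (At \ f ⁻¹' A') - sz (Bt \ f ⁻¹' B'),
    (s + 1) * k - τ - sz (f ⁻¹' A' \ At) - sz (f ⁻¹' B' \ Bt),
    (s + 1) * k - τ - sz (f ⁻¹' A' \ At) - sz (f ⁻¹' B' \ Bt) - sz (f ⁻¹' C' \ Ct),
    hSZ, ?_, ?_, ?_, ?_, ?_, ?_, ?_, ?_, ?_, ?_⟩
  · rintro d ⟨d', hd, rfl⟩ g
    have hd' : f (d', 0) = 0 := hd
    have hZ' : g + K.subtype d' ∈ Z ↔ g ∈ Z := by
      simp only [hZ, Set.mem_ofPred_eq, AddSubgroup.coe_subtype]
      have : g + (d' : G) - g0 = (g - g0) + d' := by abel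
      rw [this, K.add_mem_cancel_right d'.2]
    by_cases hg : g ∈ Z
    · obtain ⟨h, rfl⟩ := memZ g hg
      have e1 : (h : G) + g0 + K.subtype d' = ((h + d' : K) : G) + g0 := by
        simp only [AddSubgroup.coe_subtype, AddSubgroup.coe_add]; abel
      have e2 : ((h + d', 0) : K × E) = (h, 0) + (d', 0) := by simp
      rw [Set.mem_sdiff, Set.mem_sdiff, hZ', e1, memS, memS, e2, map_add, hd', add_zero]
    · simp only [Set.mem_sdiff, hZ', hg, false_and]
  · rintro g ⟨h, rfl, hh⟩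
    have := rr_in hn.fib hn.crit At Bt (h, 0) hh
    rw [eR] at this
    linarith
  · intro g hg hgS
    obtain ⟨h, rfl⟩ := memZ g hg
    have := rr_out hn.fib hn.crit At Bt (h, 0) (fun hh => hgS ((memS h).2 hh))
    rw [eR] at this
    linarith
  · rw [← eJ]; linarith
  · linarith
  · linarith
  · linarith
  · rw [← eJ]; exact Phi_le_three hn.fib hn.crit At Bt Ct τ
  · rw [← eJ, ← eA, ← eB, ← eC, ← eL, sz_eq_diff At (f ⁻¹' A'), sz_eq_diff Bt (f ⁻¹' B'),
      sz_eq_diff Ct (f ⁻¹' C'), hn.fib.sz, hn.fib.sz, hn.fib.sz, hn.fib.card]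
    have := hn.crit.size
    have h2 : k * sz A' + k * sz B' + k * sz C' - k * Fintype.card D = k * (2 * s + 1) := by
      rw [← this]; ring
    linarith
  · linarith

end Pool.Agent.Lib.MP_cd64ef_nt
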